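import Pool.Agent.SAIL.HAQ.Targets

/-!
SAIL, part H, quadrangles, item H1: the integral for `K1`.
-/

namespace SAIL.Q

open Matrix MeasureTheory Filter SAIL SAIL.A SAIL.F

namespace H1x

lemma measurable_dd {α : Type*} [MeasurableSpace α] {f g : α → ℝ × ℝ} (hf : Measurable f)
    (hg : Measurable g) : Measurable fun x => dd (f x) (g x) := by
  unfold dd
  fun_prop

lemma measurableSet_Red2 (b : ℝ) : MeasurableSet (Red2 b) := by
  have h1 : Measurable fun p : (ℝ × ℝ) × (ℝ × ℝ) => dd p.1 p.2 :=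
    measurable_dd measurable_fst measurable_snd
  have a1 : Measurable fun p : (ℝ × ℝ) × (ℝ × ℝ) => p.1.1 ^ 2 + p.1.2 ^ 2 := by fun_prop
  have a2 : Measurable fun p : (ℝ × ℝ) × (ℝ × ℝ) => p.2.1 ^ 2 + p.2.2 ^ 2 := by fun_prop
  have a3 : Measurable fun p : (ℝ × ℝ) × (ℝ × ℝ) => 2 * |p.1.1 * p.2.1 + p.1.2 * p.2.2| := by
    fun_prop
  have a4 : Measurable fun p : (ℝ × ℝ) × (ℝ × ℝ) => p.1.2 := by fun_prop
  unfold Red2
  exact (measurableSet_lt measurable_const h1).inter
    ((measurableSet_le h1 measurable_const).inter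
      ((measurableSet_le a1 a2).inter ((measurableSet_le a3 a1).inter
          (measurableSet_le measurable_const a4))))

lemma measurableSet_S1 (b : ℝ) : MeasurableSet {p ∈ S1 b | 0 < dd p.2.1 p.2.2} := by
  have h0 : Measurable fun p : R6 => dd p.1 p.2.2 := measurable_dd (by fun_prop) (by fun_prop)
  have h1 : Measurable fun p : R6 => dd p.2.1 p.2.2 := measurable_dd (by fun_prop) (by fun_prop)
  have h2 : Measurable fun p : R6 => dd p.2.1 p.1 := measurable_dd (by fun_prop) (by fun_prop)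
  have h3 : MeasurableSet {p : R6 | p.2 ∈ Red2 b} := measurable_snd (measurableSet_Red2 b)
  unfold S1
  exact (h3.inter ((measurableSet_le measurable_const h0).inter
    ((measurableSet_le h0 h1).inter ((measurableSet_le measurable_const h2).inter
      (measurableSet_le h2 h1))))).inter (measurableSet_lt measurable_const h1)

end H1x

open H1x in
theorem p_H1 (hA : tH1a) (hE : tH1e) : tH1 := by
  intro b hb
  refine le_trans ?_ (hE b hb)
  have hT := measurableSet_S1 b
  have hR := measurableSet_Red2 b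
  rw [← lintegral_indicator hT, ← lintegral_indicator hR]
  have hmeas : Measurable ({p ∈ S1 b | 0 < dd p.2.1 p.2.2}.indicator
      fun p : R6 => ENNReal.ofReal (1 / dd p.2.1 p.2.2 ^ 2)) := by
    refine Measurable.indicator ?_ hT
    have h1 : Measurable fun p : R6 => dd p.2.1 p.2.2 := measurable_dd (by fun_prop) (by fun_prop)
    exact ENNReal.measurable_ofReal.comp ((h1.pow_const 2).const_div 1)
  have hv : (volume : Measure R6) = (volume : Measure (ℝ × ℝ)).prod volume := rfl
  rw [hv, lintegral_prod_symm _ hmeas.aemeasurable]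
  refine lintegral_mono fun q => ?_
  by_cases hq : q ∈ Red2 b
  · have hd : 0 < dd q.1 q.2 := hq.1
    rw [Set.indicator_of_mem hq]
    have hset : MeasurableSet {p : ℝ × ℝ | 0 ≤ dd p q.2 ∧ dd p q.2 ≤ dd q.1 q.2 ∧
        0 ≤ dd q.1 p ∧ dd q.1 p ≤ dd q.1 q.2} := by
      have h0 : Measurable fun p : ℝ × ℝ => dd p q.2 := measurable_dd (by fun_prop) (by fun_prop)
      have h2 : Measurable fun p : ℝ × ℝ => dd q.1 p := measurable_dd (by fun_prop) (by fun_prop)
      exact (measurableSet_le measurable_const h0).inter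
        ((measurableSet_le h0 measurable_const).inter ((measurableSet_le measurable_const h2).inter
          (measurableSet_le h2 measurable_const)))
    have heq : ∀ x : ℝ × ℝ, {p ∈ S1 b | 0 < dd p.2.1 p.2.2}.indicator
        (fun p : R6 => ENNReal.ofReal (1 / dd p.2.1 p.2.2 ^ 2)) (x, q) =
        {p : ℝ × ℝ | 0 ≤ dd p q.2 ∧ dd p q.2 ≤ dd q.1 q.2 ∧
        0 ≤ dd q.1 p ∧ dd q.1 p ≤ dd q.1 q.2}.indicator
          (fun _ => ENNReal.ofReal (1 / dd q.1 q.2 ^ 2)) x := by
      intro x
      by_cases hx : x ∈ {p : ℝ × ℝ | 0 ≤ dd p q.2 ∧ dd p q.2 ≤ dd q.1 q.2 ∧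
          0 ≤ dd q.1 p ∧ dd q.1 p ≤ dd q.1 q.2}
      · rw [Set.indicator_of_mem hx, Set.indicator_of_mem]
        exact ⟨⟨hq, hx⟩, hd⟩
      · rw [Set.indicator_of_notMem hx, Set.indicator_of_notMem]
        exact fun h => hx h.1.2
    simp_rw [heq]
    rw [lintegral_indicator_const hset, hA q.1 q.2 hd, ← ENNReal.ofReal_mul (by positivity)]
    apply le_of_eq
    congr 1
    field_simp
  · have : ∀ x : ℝ × ℝ, {p ∈ S1 b | 0 < dd p.2.1 p.2.2}.indicator
        (fun p : R6 => ENNReal.ofReal (1 / dd p.2.1 p.2.2 ^ 2)) (x, q) = 0 := by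
      intro x
      rw [Set.indicator_of_notMem]
      exact fun h => hq h.1.1
    rw [lintegral_congr this, lintegral_zero]
    exact bot_le

end SAIL.Q
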