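import Pool.Agent.SAIL.HAQ.Targets

/-!
SAIL, part H, quadrangles: area of a parallelogram (target tH1a).
-/

namespace SAIL.Q

open Matrix MeasureTheory Filter SAIL SAIL.A SAIL.F

namespace H1ax

/-- the linear map `p ↦ (dd p f, dd e p)` -/
noncomputable def L (e f : ℝ × ℝ) : (ℝ × ℝ) →ₗ[ℝ] (ℝ × ℝ) :=
  Matrix.toLin (Module.Basis.finTwoProd ℝ) (Module.Basis.finTwoProd ℝ) !![f.2, -f.1; -e.2, e.1]

lemma L_apply (e f p : ℝ × ℝ) : L e f p = (dd p f, dd e p) := by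
  unfold L
  rw [Matrix.toLin_finTwoProd_apply]
  unfold dd
  ext <;> simp <;> ring

lemma L_det (e f : ℝ × ℝ) : LinearMap.det (L e f) = dd e f := by
  unfold L
  rw [LinearMap.det_toLin, Matrix.det_fin_two_of]
  unfold dd
  ring

end H1ax

open H1ax in
theorem p_H1a : tH1a := by
  intro e f h
  have hs : {p : ℝ × ℝ | 0 ≤ dd p f ∧ dd p f ≤ dd e f ∧ 0 ≤ dd e p ∧ dd e p ≤ dd e f} =
      (L e f) ⁻¹' (Set.Icc 0 (dd e f) ×ˢ Set.Icc 0 (dd e f)) := by
    ext p
    simp only [Set.mem_ofPred_eq, Set.mem_preimage, L_apply, Set.mem_prod, Set.mem_Icc]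
    tauto
  rw [hs, Measure.addHaar_preimage_linearMap volume (by rw [L_det]; exact h.ne'), L_det,
    Measure.volume_eq_prod, Measure.prod_prod, Real.volume_Icc, sub_zero,
    abs_of_pos (inv_pos.mpr h), ← ENNReal.ofReal_mul h.le,
    ← ENNReal.ofReal_mul (inv_pos.mpr h).le]
  congr 1
  field_simp

end SAIL.Q
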