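import Pool.Agent.SAIL.HAQ.Targets

/-!
SAIL / HAQ, item H1c: the area of the half disc.
-/

namespace SAIL.Q

open Matrix MeasureTheory Filter SAIL SAIL.A SAIL.F

namespace H1cx

/-- The area of the disc. -/
theorem disc (r : ℝ) (hr : 0 ≤ r) :
    volume {e : ℝ × ℝ | e.1 ^ 2 + e.2 ^ 2 ≤ r} = ENNReal.ofReal (Real.pi * r) := by
  have hm : MeasurableSet {e : ℝ × ℝ | e.1 ^ 2 + e.2 ^ 2 ≤ r} :=
    measurableSet_le (by fun_prop) measurable_const
  have h := Complex.volume_preserving_equiv_real_prod.measure_preimage hm.nullMeasurableSet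
  have h2 : Complex.measurableEquivRealProd ⁻¹' {e : ℝ × ℝ | e.1 ^ 2 + e.2 ^ 2 ≤ r} =
      Metric.closedBall (0 : ℂ) (Real.sqrt r) := by
    ext z
    rw [Set.mem_preimage, Set.mem_setOf_eq, Complex.measurableEquivRealProd_apply,
      mem_closedBall_zero_iff, Real.le_sqrt (norm_nonneg _) hr, Complex.sq_norm,
      Complex.normSq_apply]
    constructor
    · intro h
      nlinarith [h]
    · intro h
      nlinarith [h]
  rw [← h, h2, Complex.volume_closedBall, ← ENNReal.ofReal_pow (Real.sqrt_nonneg r),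
    Real.sq_sqrt hr, mul_comm Real.pi r, ENNReal.ofReal_mul hr]
  congr 1
  rw [← ENNReal.ofReal_coe_nnreal]
  rfl

/-- The line is a null set. -/
theorem line : volume {e : ℝ × ℝ | e.2 = 0} = 0 := by
  have h : {e : ℝ × ℝ | e.2 = 0} = (Set.univ : Set ℝ) ×ˢ ({0} : Set ℝ) := by
    ext e
    simp
  rw [h, Measure.volume_eq_prod, Measure.prod_prod]
  simp

end H1cx

/-- H1c. Area of the half disc. -/
theorem p_H1c : tH1c := by
  intro r hr
  set D : Set (ℝ × ℝ) := {e | e.1 ^ 2 + e.2 ^ 2 ≤ r} with hD
  set P : Set (ℝ × ℝ) := {e | 0 ≤ e.2 ∧ e.1 ^ 2 + e.2 ^ 2 ≤ r} with hP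
  set N : Set (ℝ × ℝ) := {e | e.2 ≤ 0 ∧ e.1 ^ 2 + e.2 ^ 2 ≤ r} with hN
  have hmD : MeasurableSet D := measurableSet_le (by fun_prop) measurable_const
  have hmP : MeasurableSet P :=
    (measurableSet_le measurable_const measurable_snd).inter hmD
  have hmN : MeasurableSet N :=
    (measurableSet_le measurable_snd measurable_const).inter hmD
  have hrefl : MeasurePreserving (fun p : ℝ × ℝ => (p.1, -p.2)) volume volume := by
    have h1 := (MeasurePreserving.id (volume : Measure ℝ)).prod
      (Measure.measurePreserving_neg (volume : Measure ℝ))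
    exact h1
  have hNP : volume N = volume P := by
    have h := hrefl.measure_preimage hmP.nullMeasurableSet
    rw [← h]
    congr 1
    ext e
    simp only [hN, hP, Set.mem_setOf_eq, Set.mem_preimage, neg_sq, Left.nonneg_neg_iff]
  have hU : D = P ∪ N := by
    ext e
    constructor
    · intro h
      rcases le_total 0 e.2 with h0 | h0
      · exact Or.inl ⟨h0, h⟩
      · exact Or.inr ⟨h0, h⟩
    · rintro (h | h)
      · exact h.2
      · exact h.2
  have hI : volume (P ∩ N) = 0 := by
    refine measure_mono_null ?_ H1cx.line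
    rintro e ⟨h1, h2⟩
    exact le_antisymm h2.1 h1.1
  have hsum : volume D = volume P + volume P := by
    have h := measure_union_add_inter (μ := (volume : Measure (ℝ × ℝ))) P hmN
    rw [← hU, hI, add_zero, hNP] at h
    exact h
  have hd := H1cx.disc r hr
  rw [← hD] at hd
  rw [hd] at hsum
  have h2 : ENNReal.ofReal (Real.pi * r) =
      ENNReal.ofReal (Real.pi / 2 * r) + ENNReal.ofReal (Real.pi / 2 * r) := by
    rw [← ENNReal.ofReal_add (by positivity) (by positivity)]
    congr 1
    ring
  rw [h2, ← two_mul, ← two_mul] at hsum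
  exact ((ENNReal.mul_right_inj (by norm_num) (by norm_num)).1 hsum).symm

end SAIL.Q
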