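import Pool.Agent.SAIL.HAQ.Targets

namespace SAIL.Q.H1dx

open MeasureTheory Set

lemma inner_int {c : ℝ} (hc : 0 < c) :
    ∫⁻ y in Set.Ici c, ENNReal.ofReal (1 / y ^ 2) = ENNReal.ofReal (1 / c) := by
  rw [setLIntegral_congr (Ioi_ae_eq_Ici).symm]
  have h1 : ∀ y ∈ Set.Ioi c, ENNReal.ofReal (1 / y ^ 2) = ENNReal.ofReal (y ^ (-2 : ℝ)) := by
    intro y hy
    have hy0 : 0 < y := lt_trans hc hy
    congr 1
    rw [Real.rpow_neg hy0.le, one_div]
    norm_cast
  rw [setLIntegral_congr_fun measurableSet_Ioi h1]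
  rw [← ofReal_integral_eq_lintegral_ofReal]
  · rw [integral_Ioi_rpow_of_lt (by norm_num) hc]
    congr 1
    norm_num
    rw [Real.rpow_neg hc.le, Real.rpow_one]
  · exact integrableOn_Ioi_rpow_of_lt (by norm_num) hc
  · filter_upwards [ae_restrict_mem measurableSet_Ioi] with y hy
    exact Real.rpow_nonneg (lt_trans hc hy).le _

lemma sq_lt {x : ℝ} (hx : |x| ≤ 1 / 2) : 0 < 1 - x ^ 2 := by
  have := abs_le.mp hx
  nlinarith [this.1, this.2]

lemma outer_int : ∫⁻ x in Set.Icc (-(1 / 2) : ℝ) (1 / 2),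
    ENNReal.ofReal (1 / Real.sqrt (1 - x ^ 2)) = ENNReal.ofReal (Real.pi / 3) := by
  have hcont : ContinuousOn (fun x : ℝ => 1 / Real.sqrt (1 - x ^ 2))
      (Set.uIcc (-(1 / 2) : ℝ) (1 / 2)) := by
    rw [Set.uIcc_of_le (by norm_num)]
    refine ContinuousOn.div continuousOn_const (by fun_prop) ?_
    intro x hx
    have : 0 < 1 - x ^ 2 := sq_lt (abs_le.mpr ⟨hx.1, hx.2⟩)
    exact (Real.sqrt_pos.mpr this).ne'
  have hint : IntervalIntegrable (fun x : ℝ => 1 / Real.sqrt (1 - x ^ 2)) volume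
      (-(1 / 2) : ℝ) (1 / 2) := hcont.intervalIntegrable
  have hI : ∫ x in (-(1 / 2) : ℝ)..(1 / 2), 1 / Real.sqrt (1 - x ^ 2) = Real.pi / 3 := by
    rw [intervalIntegral.integral_eq_sub_of_hasDerivAt (f := Real.arcsin)
      (f' := fun x => 1 / Real.sqrt (1 - x ^ 2))]
    · have h : Real.arcsin (1 / 2) = Real.pi / 6 := by
        rw [← Real.sin_pi_div_six]
        exact Real.arcsin_sin (by linarith [Real.pi_pos]) (by linarith [Real.pi_pos])
      rw [Real.arcsin_neg, h]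
      ring
    · intro x hx
      rw [Set.uIcc_of_le (by norm_num)] at hx
      exact Real.hasDerivAt_arcsin (by linarith [hx.1]) (by linarith [hx.2])
    · exact hint
  rw [← ofReal_integral_eq_lintegral_ofReal]
  · congr 1
    rw [integral_Icc_eq_integral_Ioc, ← intervalIntegral.integral_of_le (by norm_num)]
    exact hI
  · rw [Set.uIcc_of_le (by norm_num)] at hcont
    exact hcont.integrableOn_Icc
  · exact Filter.Eventually.of_forall fun x => by positivity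

end SAIL.Q.H1dx

namespace SAIL.Q

open MeasureTheory Set

theorem p_H1d : tH1d := by
  unfold tH1d
  have hm : MeasurableSet {z : ℝ × ℝ | |z.1| ≤ 1 / 2 ∧ 1 ≤ z.1 ^ 2 + z.2 ^ 2 ∧ 0 < z.2} := by
    have h1 : MeasurableSet {z : ℝ × ℝ | |z.1| ≤ 1 / 2} :=
      (isClosed_le (by fun_prop) (by fun_prop)).measurableSet
    have h2 : MeasurableSet {z : ℝ × ℝ | 1 ≤ z.1 ^ 2 + z.2 ^ 2} :=
      (isClosed_le (by fun_prop) (by fun_prop)).measurableSet
    have h3 : MeasurableSet {z : ℝ × ℝ | 0 < z.2} :=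
      (isOpen_lt (by fun_prop) (by fun_prop)).measurableSet
    exact h1.inter (h2.inter h3)
  have hf : Measurable fun z : ℝ × ℝ => ENNReal.ofReal (1 / z.2 ^ 2) := by
    exact ENNReal.measurable_ofReal.comp (by fun_prop)
  rw [← lintegral_indicator hm, Measure.volume_eq_prod,
    lintegral_prod _ (hf.indicator hm).aemeasurable]
  rw [← H1dx.outer_int, ← lintegral_indicator measurableSet_Icc]
  refine lintegral_congr fun x => ?_
  by_cases hx : |x| ≤ 1 / 2
  · have hx' : x ∈ Set.Icc (-(1 / 2) : ℝ) (1 / 2) := abs_le.mp hx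
    rw [Set.indicator_of_mem hx']
    have h0 := H1dx.sq_lt hx
    have hc : 0 < Real.sqrt (1 - x ^ 2) := Real.sqrt_pos.mpr h0
    rw [← H1dx.inner_int hc, ← lintegral_indicator measurableSet_Ici]
    refine lintegral_congr fun y => ?_
    by_cases hy : Real.sqrt (1 - x ^ 2) ≤ y
    · have hyI : y ∈ Set.Ici (Real.sqrt (1 - x ^ 2)) := hy
      have h2 : 1 - x ^ 2 ≤ y ^ 2 := (Real.sqrt_le_left (hc.le.trans hy)).mp hy
      have hyS : (x, y) ∈ {z : ℝ × ℝ | |z.1| ≤ 1 / 2 ∧ 1 ≤ z.1 ^ 2 + z.2 ^ 2 ∧ 0 < z.2} := by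
        refine ⟨hx, ?_, lt_of_lt_of_le hc hy⟩
        show 1 ≤ x ^ 2 + y ^ 2
        linarith
      rw [Set.indicator_of_mem hyI, Set.indicator_of_mem hyS]
    · have hyI : y ∉ Set.Ici (Real.sqrt (1 - x ^ 2)) := hy
      have hyS : (x, y) ∉ {z : ℝ × ℝ | |z.1| ≤ 1 / 2 ∧ 1 ≤ z.1 ^ 2 + z.2 ^ 2 ∧ 0 < z.2} := by
        rintro ⟨_, h2, h3⟩
        apply hy
        have h2' : 1 ≤ x ^ 2 + y ^ 2 := h2
        exact Real.sqrt_le_iff.mpr ⟨le_of_lt h3, by linarith⟩
      rw [Set.indicator_of_notMem hyI, Set.indicator_of_notMem hyS]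
  · have hx' : x ∉ Set.Icc (-(1 / 2) : ℝ) (1 / 2) := fun h => hx (abs_le.mpr h)
    rw [Set.indicator_of_notMem hx']
    have : ∀ y, Set.indicator {z : ℝ × ℝ | |z.1| ≤ 1 / 2 ∧ 1 ≤ z.1 ^ 2 + z.2 ^ 2 ∧ 0 < z.2}
        (fun z => ENNReal.ofReal (1 / z.2 ^ 2)) (x, y) = 0 := by
      intro y
      exact Set.indicator_of_notMem (fun h => hx h.1) _
    simp only [this, lintegral_zero]

end SAIL.Q
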