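import Pool.Agent.SAIL.HAQ.Targets

namespace SAIL.Q.H1ex

open Matrix MeasureTheory Filter SAIL SAIL.A SAIL.F

/-- the modular domain -/
def Dm : Set (ℝ × ℝ) := {z : ℝ × ℝ | |z.1| ≤ 1 / 2 ∧ 1 ≤ z.1 ^ 2 + z.2 ^ 2 ∧ 0 < z.2}

lemma meas_Dm : MeasurableSet Dm := by
  have h1 : MeasurableSet {z : ℝ × ℝ | |z.1| ≤ 1 / 2} :=
    measurableSet_le (by fun_prop) (by fun_prop)
  have h2 : MeasurableSet {z : ℝ × ℝ | 1 ≤ z.1 ^ 2 + z.2 ^ 2} :=
    measurableSet_le (by fun_prop) (by fun_prop)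
  have h3 : MeasurableSet {z : ℝ × ℝ | 0 < z.2} := measurableSet_lt (by fun_prop) (by fun_prop)
  have h := h1.inter (h2.inter h3)
  exact h

lemma meas_Red2 (b : ℝ) : MeasurableSet (Red2 b) := by
  have h1 : MeasurableSet {p : (ℝ × ℝ) × (ℝ × ℝ) | 0 < p.1.1 * p.2.2 - p.1.2 * p.2.1} :=
    measurableSet_lt (by fun_prop) (by fun_prop)
  have h2 : MeasurableSet {p : (ℝ × ℝ) × (ℝ × ℝ) | p.1.1 * p.2.2 - p.1.2 * p.2.1 ≤ b} :=
    measurableSet_le (by fun_prop) (by fun_prop)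
  have h3 : MeasurableSet {p : (ℝ × ℝ) × (ℝ × ℝ) |
      p.1.1 ^ 2 + p.1.2 ^ 2 ≤ p.2.1 ^ 2 + p.2.2 ^ 2} :=
    measurableSet_le (by fun_prop) (by fun_prop)
  have h4 : MeasurableSet {p : (ℝ × ℝ) × (ℝ × ℝ) |
      2 * |p.1.1 * p.2.1 + p.1.2 * p.2.2| ≤ p.1.1 ^ 2 + p.1.2 ^ 2} :=
    measurableSet_le (by fun_prop) (by fun_prop)
  have h5 : MeasurableSet {p : (ℝ × ℝ) × (ℝ × ℝ) | 0 ≤ p.1.2} :=
    measurableSet_le (by fun_prop) (by fun_prop)
  have h := h1.inter (h2.inter (h3.inter (h4.inter h5)))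
  exact h

/-- the set in the coordinates -/
def Kb (b : ℝ) : Set ((ℝ × ℝ) × (ℝ × ℝ)) :=
  {p | p.2 ∈ Dm ∧ 0 ≤ p.1.2 ∧ p.1.1 ^ 2 + p.1.2 ^ 2 ≤ b / p.2.2}

lemma meas_Kb (b : ℝ) : MeasurableSet (Kb b) := by
  have h1 : MeasurableSet {p : (ℝ × ℝ) × (ℝ × ℝ) | p.2 ∈ Dm} := measurable_snd meas_Dm
  have h2 : MeasurableSet {p : (ℝ × ℝ) × (ℝ × ℝ) | 0 ≤ p.1.2} :=
    measurableSet_le (by fun_prop) (by fun_prop)
  have h3 : MeasurableSet {p : (ℝ × ℝ) × (ℝ × ℝ) | p.1.1 ^ 2 + p.1.2 ^ 2 ≤ b / p.2.2} :=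
    measurableSet_le (by fun_prop) (measurable_const.div (by fun_prop))
  have h := h1.inter (h2.inter h3)
  exact h

/-- the integrand in the coordinates -/
noncomputable def kf (b : ℝ) : (ℝ × ℝ) × (ℝ × ℝ) → ENNReal :=
  (Kb b).indicator fun p => ENNReal.ofReal (1 / p.2.2)

lemma meas_kf (b : ℝ) : Measurable (kf b) := by
  unfold kf
  refine Measurable.indicator ?_ (meas_Kb b)
  exact ENNReal.measurable_ofReal.comp (measurable_const.div (by fun_prop))

lemma meas_g : Measurable (fun p : (ℝ × ℝ) × (ℝ × ℝ) => ENNReal.ofReal (1 / dd p.1 p.2)) := by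
  unfold dd
  exact ENNReal.measurable_ofReal.comp (measurable_const.div (by fun_prop))

/-- the inner integral -/
lemma inner (h1b : tH1b) (b : ℝ) (hb : 0 < b) (e : ℝ × ℝ) :
    ∫⁻ f, (Red2 b).indicator (fun p => ENNReal.ofReal (1 / dd p.1 p.2)) (e, f) ≤
      ∫⁻ z, kf b (e, z) := by
  by_cases he : e = 0
  · have : ∀ f : ℝ × ℝ,
        (Red2 b).indicator (fun p => ENNReal.ofReal (1 / dd p.1 p.2)) (e, f) = 0 := by
      intro f
      rw [Set.indicator_of_notMem]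
      intro h
      have h1 := h.1
      simp [dd, he] at h1
    simp only [this, lintegral_zero]
    exact zero_le
  · have hr : 0 < e.1 ^ 2 + e.2 ^ 2 := by
      by_contra hn
      apply he
      have h1 : e.1 ^ 2 + e.2 ^ 2 = 0 := le_antisymm (not_lt.1 hn) (by positivity)
      have h2 : e.1 = 0 := by nlinarith [sq_nonneg e.1, sq_nonneg e.2]
      have h3 : e.2 = 0 := by nlinarith [sq_nonneg e.1, sq_nonneg e.2]
      exact Prod.ext h2 h3
    set r := e.1 ^ 2 + e.2 ^ 2 with hrd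
    have hF : Measurable (fun f : ℝ × ℝ =>
        (Red2 b).indicator (fun p => ENNReal.ofReal (1 / dd p.1 p.2)) (e, f)) :=
      (meas_g.indicator (meas_Red2 b)).comp measurable_prodMk_left
    rw [h1b e he _ hF, ← lintegral_const_mul' _ _ ENNReal.ofReal_ne_top]
    refine lintegral_mono fun z => ?_
    simp only
    by_cases hz : (e, (z.1 * e.1 - z.2 * e.2, z.1 * e.2 + z.2 * e.1)) ∈ Red2 b
    · rw [Set.indicator_of_mem hz]
      obtain ⟨c1, c2, c3, c4, c5⟩ := hz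
      simp only [dd] at c1 c2 c3 c4 c5
      have d1 : e.1 * (z.1 * e.2 + z.2 * e.1) - e.2 * (z.1 * e.1 - z.2 * e.2) = z.2 * r := by
        rw [hrd]; ring
      have d3 : (z.1 * e.1 - z.2 * e.2) ^ 2 + (z.1 * e.2 + z.2 * e.1) ^ 2 =
          (z.1 ^ 2 + z.2 ^ 2) * r := by rw [hrd]; ring
      have d4 : e.1 * (z.1 * e.1 - z.2 * e.2) + e.2 * (z.1 * e.2 + z.2 * e.1) = z.1 * r := by
        rw [hrd]; ring
      rw [d1] at c1 c2
      rw [d3, ← hrd] at c3
      rw [d4, ← hrd, abs_mul, abs_of_pos hr] at c4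
      have hz2 : 0 < z.2 := by
        by_contra hc
        have := mul_nonpos_of_nonpos_of_nonneg (not_lt.1 hc) hr.le
        linarith
      have hz1 : |z.1| ≤ 1 / 2 := by
        by_contra hc
        rw [not_le] at hc
        nlinarith
      have hz3 : 1 ≤ z.1 ^ 2 + z.2 ^ 2 := by
        by_contra hc
        rw [not_le] at hc
        nlinarith
      have hmem : (e, z) ∈ Kb b := by
        refine ⟨⟨hz1, hz3, hz2⟩, c5, ?_⟩
        rw [le_div_iff₀ hz2]
        show (e.1 ^ 2 + e.2 ^ 2) * z.2 ≤ b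
        rw [← hrd]
        linarith
      rw [kf, Set.indicator_of_mem hmem]
      simp only [dd]
      rw [d1, ← ENNReal.ofReal_mul hr.le]
      apply ENNReal.ofReal_le_ofReal
      apply le_of_eq
      field_simp
    · rw [Set.indicator_of_notMem hz]
      simp

end SAIL.Q.H1ex

namespace SAIL.Q

open Matrix MeasureTheory Filter SAIL SAIL.A SAIL.F H1ex

/-- H1e. The integral over reduced pairs. -/
theorem p_H1e (h1b : tH1b) (h1c : tH1c) (h1d : tH1d) : tH1e := by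
  intro b hb
  rw [← lintegral_indicator (meas_Red2 b), Measure.volume_eq_prod,
    lintegral_prod _ (meas_g.indicator (meas_Red2 b)).aemeasurable]
  calc ∫⁻ e : ℝ × ℝ, ∫⁻ f : ℝ × ℝ,
        (Red2 b).indicator (fun p => ENNReal.ofReal (1 / dd p.1 p.2)) (e, f)
      ≤ ∫⁻ e : ℝ × ℝ, ∫⁻ z : ℝ × ℝ, kf b (e, z) := lintegral_mono fun e => inner h1b b hb e
    _ = ∫⁻ z : ℝ × ℝ, ∫⁻ e : ℝ × ℝ, kf b (e, z) := by
        exact lintegral_lintegral_swap (f := fun e z => kf b (e, z)) (meas_kf b).aemeasurable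
    _ = ∫⁻ z : ℝ × ℝ, Dm.indicator (fun z => ENNReal.ofReal (Real.pi / 2 * b) *
          ENNReal.ofReal (1 / z.2 ^ 2)) z := by
        refine lintegral_congr fun z => ?_
        by_cases hz : z ∈ Dm
        · rw [Set.indicator_of_mem hz]
          have hz2 : 0 < z.2 := hz.2.2
          have hs1 : MeasurableSet {e : ℝ × ℝ | 0 ≤ e.2} :=
            measurableSet_le (by fun_prop) (by fun_prop)
          have hs2 : MeasurableSet {e : ℝ × ℝ | e.1 ^ 2 + e.2 ^ 2 ≤ b / z.2} :=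
            measurableSet_le (by fun_prop) (by fun_prop)
          have hs : MeasurableSet {e : ℝ × ℝ | 0 ≤ e.2 ∧ e.1 ^ 2 + e.2 ^ 2 ≤ b / z.2} :=
            hs1.inter hs2
          have h1 : ∀ e : ℝ × ℝ, kf b (e, z) =
              {e : ℝ × ℝ | 0 ≤ e.2 ∧ e.1 ^ 2 + e.2 ^ 2 ≤ b / z.2}.indicator
                (fun _ => ENNReal.ofReal (1 / z.2)) e := by
            intro e
            by_cases he : 0 ≤ e.2 ∧ e.1 ^ 2 + e.2 ^ 2 ≤ b / z.2
            · rw [Set.indicator_of_mem (show e ∈ {e : ℝ × ℝ | 0 ≤ e.2 ∧ e.1 ^ 2 + e.2 ^ 2 ≤ b / z.2}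
                from he), kf, Set.indicator_of_mem (show (e, z) ∈ Kb b from ⟨hz, he⟩)]
            · rw [Set.indicator_of_notMem (show e ∉ {e : ℝ × ℝ | 0 ≤ e.2 ∧
                e.1 ^ 2 + e.2 ^ 2 ≤ b / z.2} from he), kf,
                Set.indicator_of_notMem (show (e, z) ∉ Kb b from fun h => he h.2)]
          simp only [h1]
          rw [lintegral_indicator hs, setLIntegral_const, h1c (b / z.2) (by positivity),
            ← ENNReal.ofReal_mul (by positivity), ← ENNReal.ofReal_mul (by positivity)]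
          congr 1
          field_simp
        · rw [Set.indicator_of_notMem hz]
          have h1 : ∀ e : ℝ × ℝ, kf b (e, z) = 0 := by
            intro e
            rw [kf, Set.indicator_of_notMem (show (e, z) ∉ Kb b from fun h => hz h.1)]
          simp only [h1, lintegral_zero]
    _ = ENNReal.ofReal (Real.pi / 2 * b) * ∫⁻ z in Dm, ENNReal.ofReal (1 / z.2 ^ 2) := by
        rw [lintegral_indicator meas_Dm, lintegral_const_mul' _ _ ENNReal.ofReal_ne_top]
    _ = ENNReal.ofReal (Real.pi / 2 * b) * ENNReal.ofReal (Real.pi / 3) := by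
        rw [show (∫⁻ z in Dm, ENNReal.ofReal (1 / z.2 ^ 2)) = _ from h1d]
    _ = ENNReal.ofReal (Real.pi ^ 2 / 6 * b) := by
        rw [← ENNReal.ofReal_mul (by positivity)]
        congr 1
        ring
    _ ≤ ENNReal.ofReal (Real.pi ^ 2 / 6 * b) := le_rfl

end SAIL.Q
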