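import Pool.Agent.SAIL.HAQ.Targets

/-!
SAIL, part H, item H2: the integral for `K2`.
-/

namespace SAIL.Q.H2x

open Matrix MeasureTheory Filter SAIL SAIL.A SAIL.F SAIL.Q

/-- The area bound of `tH2a`. -/
noncomputable def ar (a h : ℝ) : ENNReal := ENNReal.ofReal (max 0 (1 - a - h) ^ 2 / 2)

/-- The weight. -/
noncomputable def wt (e f : ℝ × ℝ) : ENNReal := ENNReal.ofReal (1 / dd e f ^ 2)

lemma dd_meas : Measurable fun q : (ℝ × ℝ) × (ℝ × ℝ) => dd q.1 q.2 := by
  unfold dd; fun_prop

lemma wt_meas : Measurable fun q : (ℝ × ℝ) × (ℝ × ℝ) => wt q.1 q.2 := by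
  unfold wt
  exact ENNReal.measurable_ofReal.comp ((measurable_const.div (dd_meas.pow_const 2)))

lemma hn_meas : Measurable hn := by
  unfold hn; fun_prop

lemma hn_nonneg (e : ℝ × ℝ) : 0 ≤ hn e := by
  unfold hn; positivity

lemma ar_meas : Measurable fun q : ℝ × ℝ => ar q.1 q.2 := by
  unfold ar; fun_prop

/-- The integrand over pairs. -/
noncomputable def H (b : ℝ) (q : (ℝ × ℝ) × (ℝ × ℝ)) : ENNReal :=
  Set.indicator {q : (ℝ × ℝ) × (ℝ × ℝ) | b ≤ dd q.1 q.2}
    (fun q => wt q.1 q.2 * ar (hn q.1) (hn q.2)) q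

lemma H_meas (b : ℝ) : Measurable (H b) := by
  have h1 : Measurable fun q : (ℝ × ℝ) × (ℝ × ℝ) => hn q.1 := hn_meas.comp measurable_fst
  have h1' : Measurable fun q : (ℝ × ℝ) × (ℝ × ℝ) => hn q.2 := hn_meas.comp measurable_snd
  have h2 : Measurable fun q : (ℝ × ℝ) × (ℝ × ℝ) => ar (hn q.1) (hn q.2) := by
    unfold ar; fun_prop
  have h3 : MeasurableSet {q : (ℝ × ℝ) × (ℝ × ℝ) | b ≤ dd q.1 q.2} :=
    measurableSet_le measurable_const dd_meas
  exact Measurable.indicator (Measurable.mul wt_meas h2) h3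

lemma S2_meas (b : ℝ) : MeasurableSet (S2 b) := by
  apply IsClosed.measurableSet
  have h1 : IsClosed {p : R6 | b ≤ dd p.2.1 p.2.2} := by
    apply isClosed_le continuous_const
    unfold dd; fun_prop
  have h2 : IsClosed {p : R6 | ∀ s t : ℝ, (s = 0 ∨ s = 1) → (t = 0 ∨ t = 1) →
    0 ≤ p.1.1 + s * p.2.1.1 + t * p.2.2.1 ∧ 0 ≤ p.1.2 + s * p.2.1.2 + t * p.2.2.2 ∧
    (p.1.1 + s * p.2.1.1 + t * p.2.2.1) + (p.1.2 + s * p.2.1.2 + t * p.2.2.2) ≤ 1} := by
    simp only [Set.ofPred_forall]
    refine isClosed_iInter fun s => isClosed_iInter fun t => isClosed_iInter fun _ =>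
      isClosed_iInter fun _ => ?_
    refine IsClosed.and (isClosed_le continuous_const (by fun_prop)) ?_
    exact IsClosed.and (isClosed_le continuous_const (by fun_prop))
      (isClosed_le (by fun_prop) continuous_const)
  exact h1.inter h2

lemma set_eq (b : ℝ) (hb : 0 < b) : {p ∈ S2 b | 0 < dd p.2.1 p.2.2} = S2 b := by
  ext p
  constructor
  · exact fun h => h.1
  · exact fun h => ⟨h, lt_of_lt_of_le hb h.1⟩

lemma step1 (hA : tH2a) (b : ℝ) (hb : 0 < b) :
    ∫⁻ p in {p ∈ S2 b | 0 < dd p.2.1 p.2.2}, ENNReal.ofReal (1 / dd p.2.1 p.2.2 ^ 2) ≤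
      ∫⁻ e : ℝ × ℝ, ∫⁻ f : ℝ × ℝ, H b (e, f) := by
  rw [set_eq b hb, ← lintegral_indicator (S2_meas b)]
  have hm : Measurable ((S2 b).indicator fun p : R6 =>
      ENNReal.ofReal (1 / dd p.2.1 p.2.2 ^ 2)) := by
    apply Measurable.indicator _ (S2_meas b)
    exact wt_meas.comp measurable_snd
  rw [Measure.volume_eq_prod, lintegral_prod_symm' _ hm]
  have h2 : ∫⁻ e : ℝ × ℝ, ∫⁻ f : ℝ × ℝ, H b (e, f) = ∫⁻ q : (ℝ × ℝ) × (ℝ × ℝ), H b q := by
    rw [Measure.volume_eq_prod (ℝ × ℝ) (ℝ × ℝ), lintegral_prod _ (H_meas b).aemeasurable]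
  rw [h2]
  apply lintegral_mono
  rintro ⟨e, f⟩
  by_cases hd : b ≤ dd e f
  · have hH : H b (e, f) = wt e f * ar (hn e) (hn f) := by
      unfold H
      rw [Set.indicator_of_mem]
      exact hd
    rw [hH]
    set B : Set (ℝ × ℝ) := {p : ℝ × ℝ | ∀ s t : ℝ, (s = 0 ∨ s = 1) → (t = 0 ∨ t = 1) →
      0 ≤ p.1 + s * e.1 + t * f.1 ∧ 0 ≤ p.2 + s * e.2 + t * f.2 ∧
      (p.1 + s * e.1 + t * f.1) + (p.2 + s * e.2 + t * f.2) ≤ 1} with hB
    have hBm : MeasurableSet B := by
      have : B = (fun p : ℝ × ℝ => ((p, (e, f)) : R6)) ⁻¹' (S2 b) := by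
        ext p
        constructor
        · exact fun h => ⟨hd, h⟩
        · exact fun h => h.2
      rw [this]
      exact (S2_meas b).preimage (by fun_prop)
    have e1 : ∀ x : ℝ × ℝ, (S2 b).indicator (fun p : R6 =>
        ENNReal.ofReal (1 / dd p.2.1 p.2.2 ^ 2)) (x, (e, f)) =
        B.indicator (fun _ => wt e f) x := by
      intro x
      by_cases hx : x ∈ B
      · rw [Set.indicator_of_mem hx, Set.indicator_of_mem]
        · rfl
        · exact ⟨hd, hx⟩
      · rw [Set.indicator_of_notMem hx, Set.indicator_of_notMem]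
        exact fun h => hx h.2
    simp_rw [e1]
    rw [lintegral_indicator hBm, setLIntegral_const]
    exact mul_le_mul_right (hA e f) _
  · have e1 : ∀ x : ℝ × ℝ, (S2 b).indicator (fun p : R6 =>
        ENNReal.ofReal (1 / dd p.2.1 p.2.2 ^ 2)) (x, (e, f)) = 0 := by
      intro x
      rw [Set.indicator_of_notMem]
      exact fun h => hd h.1
    simp_rw [e1]
    simp

/-- Layers. -/
lemma layer (a h : ℝ) (hh : 0 ≤ h) :
    ar a h ≤ ∫⁻ r in Set.Ioi (0 : ℝ), Set.indicator (Set.Ici h)
      (fun r => ENNReal.ofReal (max 0 (1 - a - r))) r := by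
  unfold ar
  by_cases hc : h ≤ 1 - a
  · have h1 : max 0 (1 - a - h) ^ 2 / 2 = ∫ r in h..(1 - a), (1 - a - r) := by
      rw [max_eq_right (by linarith)]
      have hder : ∀ x ∈ Set.uIcc h (1 - a),
          HasDerivAt (fun r : ℝ => (1 - a) * r - r ^ 2 / 2) (1 - a - x) x := by
        intro x _
        have h := ((hasDerivAt_id x).const_mul (1 - a)).sub
          (((hasDerivAt_id x).pow 2).div_const 2)
        refine HasDerivAt.congr_deriv h ?_
        simp only [id]
        ring
      rw [intervalIntegral.integral_eq_sub_of_hasDerivAt hder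
        ((by fun_prop : Continuous fun r : ℝ => (1 - a - r)).intervalIntegrable _ _)]
      ring
    rw [h1, intervalIntegral.integral_of_le hc]
    rw [ofReal_integral_eq_lintegral_ofReal]
    · have hsub : Set.Ioc h (1 - a) ⊆ Set.Ioi (0 : ℝ) := fun x hx => lt_of_le_of_lt hh hx.1
      refine le_trans (le_of_eq ?_) (lintegral_mono_set hsub)
      apply setLIntegral_congr_fun measurableSet_Ioc
      intro r hr
      show _ = Set.indicator (Set.Ici h) (fun r => ENNReal.ofReal (max 0 (1 - a - r))) r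
      rw [Set.indicator_of_mem (show r ∈ Set.Ici h from hr.1.le),
        max_eq_right (by linarith [hr.2])]
    · exact (Continuous.integrableOn_Icc (by fun_prop)).mono_set Set.Ioc_subset_Icc_self
    · rw [EventuallyLE, ae_restrict_iff' measurableSet_Ioc]
      refine Eventually.of_forall fun r hr => ?_
      show (0 : ℝ) ≤ 1 - a - r
      linarith [hr.2]
  · push Not at hc
    rw [max_eq_left (by linarith)]
    simp

/-- The one dimensional integral. -/
lemma onedim (K c d : ℝ) (hK : 0 ≤ K) (hc : 0 ≤ c) (g : ℝ → ENNReal)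
    (h1 : ∀ r, 0 < r → c < r → r ≤ d → g r ≤ ENNReal.ofReal (K * ((d - r) * (r - c))))
    (h2 : ∀ r, 0 < r → (r ≤ c ∨ d < r) → g r = 0) :
    ∫⁻ r in Set.Ioi (0 : ℝ), g r ≤ ENNReal.ofReal (K / 6 * max 0 (d - c) ^ 3) := by
  have e1 : ∫⁻ r in Set.Ioi (0 : ℝ), g r = ∫⁻ r in Set.Ioc c d, g r := by
    have hsub : Set.Ioc c d ⊆ Set.Ioi (0 : ℝ) := fun x hx => lt_of_le_of_lt hc hx.1
    have : ∫⁻ r in Set.Ioi (0 : ℝ), g r = ∫⁻ r in Set.Ioi (0 : ℝ), (Set.Ioc c d).indicator g r := by
      apply setLIntegral_congr_fun measurableSet_Ioi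
      intro r hr
      by_cases hm : r ∈ Set.Ioc c d
      · rw [Set.indicator_of_mem hm]
      · rw [Set.indicator_of_notMem hm]
        apply h2 r hr
        by_contra hcon
        push Not at hcon
        exact hm ⟨hcon.1, hcon.2⟩
    rw [this, lintegral_indicator measurableSet_Ioc, Measure.restrict_restrict measurableSet_Ioc,
      Set.inter_eq_left.mpr hsub]
  rw [e1]
  by_cases hcd : c ≤ d
  · have e2 : K / 6 * max 0 (d - c) ^ 3 = ∫ r in c..d, K * ((d - r) * (r - c)) := by
      rw [max_eq_right (by linarith), intervalIntegral.integral_const_mul]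
      have : ∫ r in c..d, (d - r) * (r - c) = (d - c) ^ 3 / 6 := by
        have hder : ∀ x ∈ Set.uIcc c d,
            HasDerivAt (fun r : ℝ => (c + d) * r ^ 2 / 2 - r ^ 3 / 3 - c * d * r)
              ((d - x) * (x - c)) x := by
          intro x _
          have h := ((((hasDerivAt_id x).pow 2).const_mul (c + d)).div_const 2).sub
            (((hasDerivAt_id x).pow 3).div_const 3) |>.sub ((hasDerivAt_id x).const_mul (c * d))
          refine HasDerivAt.congr_deriv h ?_
          simp only [id]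
          ring
        rw [intervalIntegral.integral_eq_sub_of_hasDerivAt hder
          ((by fun_prop : Continuous fun r : ℝ => (d - r) * (r - c)).intervalIntegrable _ _)]
        ring
      rw [this]; ring
    rw [e2, intervalIntegral.integral_of_le hcd, ofReal_integral_eq_lintegral_ofReal]
    · apply setLIntegral_mono' measurableSet_Ioc
      intro r hr
      exact h1 r (lt_of_le_of_lt hc hr.1) hr.1 hr.2
    · exact (Continuous.integrableOn_Icc (by fun_prop)).mono_set Set.Ioc_subset_Icc_self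
    · rw [EventuallyLE, ae_restrict_iff' measurableSet_Ioc]
      refine Eventually.of_forall fun r hr => ?_
      show (0 : ℝ) ≤ K * ((d - r) * (r - c))
      have := hr.1; have := hr.2
      apply mul_nonneg hK
      apply mul_nonneg <;> linarith
  · rw [Set.Ioc_eq_empty (by linarith)]
    simp

lemma step2 (hB : tH2b) (hN : tH2n) (b : ℝ) (hb : 0 < b) (e : ℝ × ℝ) :
    ∫⁻ f : ℝ × ℝ, H b (e, f) ≤
      ENNReal.ofReal (1 / (3 * hn e * b) * max 0 (1 - hn e - b / hn e) ^ 3) := by
  by_cases he : e = 0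
  · have : ∀ f : ℝ × ℝ, H b (e, f) = 0 := by
      intro f
      unfold H
      rw [Set.indicator_of_notMem]
      simp [he, dd, hb]
    simp_rw [this]
    simp
  have ha : 0 < hn e := hN.2.2.1 e he
  set a := hn e with hadef
  -- layers
  set J : ℝ × ℝ → ℝ → ENNReal := fun f r =>
    Set.indicator {f : ℝ × ℝ | b ≤ dd e f} (fun f => wt e f) f *
      Set.indicator {q : (ℝ × ℝ) × ℝ | hn q.1 ≤ q.2}
        (fun q => ENNReal.ofReal (max 0 (1 - a - q.2))) (f, r) with hJ
  have hJm : Measurable (Function.uncurry J) := by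
    apply Measurable.mul
    · have h1 : Measurable fun f : ℝ × ℝ => dd e f := by unfold dd; fun_prop
      have h2 : Measurable fun f : ℝ × ℝ => wt e f := by
        unfold wt
        exact ENNReal.measurable_ofReal.comp ((measurable_const.div (h1.pow_const 2)))
      exact (h2.indicator (measurableSet_le measurable_const h1)).comp measurable_fst
    · apply Measurable.indicator
      · fun_prop
      · exact measurableSet_le (hn_meas.comp measurable_fst) measurable_snd
  have s1 : ∀ f : ℝ × ℝ, H b (e, f) ≤ ∫⁻ r in Set.Ioi (0 : ℝ), J f r := by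
    intro f
    have hl := layer a (hn f) (hn_nonneg f)
    have : ∫⁻ r in Set.Ioi (0 : ℝ), J f r =
        Set.indicator {f : ℝ × ℝ | b ≤ dd e f} (fun f => wt e f) f *
          ∫⁻ r in Set.Ioi (0 : ℝ), Set.indicator (Set.Ici (hn f))
            (fun r => ENNReal.ofReal (max 0 (1 - a - r))) r := by
      rw [← lintegral_const_mul']
      · rfl
      · by_cases hm : b ≤ dd e f
        · rw [Set.indicator_of_mem (show f ∈ {f : ℝ × ℝ | b ≤ dd e f} from hm)]
          exact ENNReal.ofReal_ne_top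
        · rw [Set.indicator_of_notMem (show f ∉ {f : ℝ × ℝ | b ≤ dd e f} from hm)]
          exact ENNReal.zero_ne_top
    rw [this]
    by_cases hm : b ≤ dd e f
    · rw [Set.indicator_of_mem (show f ∈ {f : ℝ × ℝ | b ≤ dd e f} from hm)]
      unfold H
      rw [Set.indicator_of_mem (show (e, f) ∈ {q : (ℝ × ℝ) × (ℝ × ℝ) | b ≤ dd q.1 q.2} from hm)]
      exact mul_le_mul_right hl _
    · unfold H
      rw [Set.indicator_of_notMem (show (e, f) ∉ {q : (ℝ × ℝ) × (ℝ × ℝ) | b ≤ dd q.1 q.2} from hm)]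
      exact bot_le
  refine (lintegral_mono s1).trans ?_
  rw [lintegral_lintegral_swap (f := J) hJm.aemeasurable]
  have s2 : ∀ r : ℝ, 0 < r → ∫⁻ f : ℝ × ℝ, J f r ≤ ENNReal.ofReal (max 0 (1 - a - r)) *
      ENNReal.ofReal (2 * r / a * max 0 (1 / b - 1 / (a * r))) := by
    intro r hr
    have hset : MeasurableSet {f : ℝ × ℝ | hn f ≤ r ∧ b ≤ dd e f} := by
      have h1 : MeasurableSet {f : ℝ × ℝ | hn f ≤ r} := measurableSet_le hn_meas measurable_const
      have h2 : Measurable fun f : ℝ × ℝ => dd e f := by unfold dd; fun_prop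
      have h3 : MeasurableSet {f : ℝ × ℝ | b ≤ dd e f} := measurableSet_le measurable_const h2
      exact h1.inter h3
    have : ∀ f, J f r = ENNReal.ofReal (max 0 (1 - a - r)) *
        Set.indicator {f : ℝ × ℝ | hn f ≤ r ∧ b ≤ dd e f} (fun f => wt e f) f := by
      intro f
      show Set.indicator {f : ℝ × ℝ | b ≤ dd e f} (fun f => wt e f) f *
        Set.indicator {q : (ℝ × ℝ) × ℝ | hn q.1 ≤ q.2}
          (fun q => ENNReal.ofReal (max 0 (1 - a - q.2))) (f, r) = _
      by_cases c1 : b ≤ dd e f <;> by_cases c2 : hn f ≤ r <;>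
        simp [Set.indicator, c1, c2, mul_comm]
    simp_rw [this]
    rw [lintegral_const_mul' _ _ ENNReal.ofReal_ne_top, lintegral_indicator hset]
    exact mul_le_mul_right (hB e b r he hb hr) _
  refine (setLIntegral_mono' measurableSet_Ioi (fun r hr => s2 r hr)).trans ?_
  have hK : (1 : ℝ) / (3 * a * b) = (2 / (a * b)) / 6 := by field_simp; norm_num
  have hd : 1 - a - b / a = (1 - a) - b / a := by ring
  rw [hK]
  apply onedim (2 / (a * b)) (b / a) (1 - a) (by positivity) (by positivity)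
  · intro r hr h1 h2
    rw [← ENNReal.ofReal_mul (le_max_left _ _)]
    apply ENNReal.ofReal_le_ofReal
    rw [max_eq_right (by linarith)]
    have h3 : 1 / (a * r) ≤ 1 / b := by
      apply one_div_le_one_div_of_le hb
      rw [div_lt_iff₀ ha] at h1
      linarith
    rw [max_eq_right (by linarith)]
    apply le_of_eq
    field_simp
  · intro r hr h
    rcases h with h | h
    · have h3 : 1 / b ≤ 1 / (a * r) := by
        apply one_div_le_one_div_of_le (by positivity)
        rw [le_div_iff₀ ha] at h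
        linarith
      rw [max_eq_left (show 1 / b - 1 / (a * r) ≤ 0 by linarith)]
      simp
    · rw [max_eq_left (show 1 - a - r ≤ 0 by linarith)]
      simp

end SAIL.Q.H2x

namespace SAIL.Q

open Matrix MeasureTheory Filter SAIL SAIL.A SAIL.F

theorem p_H2 (hA : tH2a) (hB : tH2b) (hC : tH2c) (hN : tH2n) : tH2 := by
  intro b hb
  refine (H2x.step1 hA b hb).trans ?_
  refine (lintegral_mono (fun e => H2x.step2 hB hN b hb e)).trans ?_
  have hm : Measurable fun a : ℝ =>
      ENNReal.ofReal (1 / (3 * a * b) * max 0 (1 - a - b / a) ^ 3) := by fun_prop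
  have e1 := hC (fun a : ℝ => ENNReal.ofReal (1 / (3 * a * b) * max 0 (1 - a - b / a) ^ 3)) hm
  refine (le_of_eq e1).trans ?_
  rw [← lintegral_const_mul' _ _ ENNReal.ofReal_ne_top]
  rw [← lintegral_indicator measurableSet_Ioi, ← lintegral_indicator measurableSet_Ioo]
  apply lintegral_mono
  intro a
  show (Set.Ioi (0 : ℝ)).indicator _ a ≤ (Set.Ioo (0 : ℝ) 1).indicator _ a
  by_cases h0 : 0 < a
  · rw [Set.indicator_of_mem (show a ∈ Set.Ioi (0 : ℝ) from h0)]
    have key : ENNReal.ofReal (6 * a) *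
        ENNReal.ofReal (1 / (3 * a * b) * max 0 (1 - a - b / a) ^ 3) =
        ENNReal.ofReal (2 / b) * ENNReal.ofReal (max 0 (1 - a - b / a) ^ 3) := by
      rw [← ENNReal.ofReal_mul (by positivity), ← ENNReal.ofReal_mul (by positivity)]
      congr 1
      field_simp
      ring
    by_cases h1 : a < 1
    · rw [Set.indicator_of_mem (show a ∈ Set.Ioo (0 : ℝ) 1 from ⟨h0, h1⟩), key]
    · rw [key]
      push Not at h1
      have : 0 < b / a := by positivity
      rw [max_eq_left (show 1 - a - b / a ≤ 0 by linarith)]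
      simp
  · rw [Set.indicator_of_notMem (show a ∉ Set.Ioi (0 : ℝ) from h0)]
    exact bot_le

end SAIL.Q
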