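import Pool.Agent.SAIL.HAQ.Targets

/-!
SAIL / HAQ H2a: base points of a parallelogram contained in the triangle.
-/

namespace SAIL.Q

open Matrix MeasureTheory Filter SAIL SAIL.A SAIL.F

namespace H2ax

lemma tri (α β γ : ℝ) : volume {p : ℝ × ℝ | α ≤ p.1 ∧ β ≤ p.2 ∧ p.1 + p.2 ≤ γ} ≤
    ENNReal.ofReal (max 0 (γ - β - α) ^ 2 / 2) := by
  have hm : MeasurableSet {p : ℝ × ℝ | α ≤ p.1 ∧ β ≤ p.2 ∧ p.1 + p.2 ≤ γ} := by
    refine MeasurableSet.inter ?_ (MeasurableSet.inter ?_ ?_)
    · exact measurableSet_le measurable_const measurable_fst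
    · exact measurableSet_le measurable_const measurable_snd
    · exact measurableSet_le (measurable_fst.add measurable_snd) measurable_const
  rw [Measure.volume_eq_prod, Measure.prod_apply hm]
  have h1 : ∀ x : ℝ, volume (Prod.mk x ⁻¹' {p : ℝ × ℝ | α ≤ p.1 ∧ β ≤ p.2 ∧ p.1 + p.2 ≤ γ}) ≤
      (Set.Icc α (γ - β)).indicator (fun x => ENNReal.ofReal (γ - β - x)) x := by
    intro x
    by_cases hx : x ∈ Set.Icc α (γ - β)
    · rw [Set.indicator_of_mem hx]
      have hs : Prod.mk x ⁻¹' {p : ℝ × ℝ | α ≤ p.1 ∧ β ≤ p.2 ∧ p.1 + p.2 ≤ γ} ⊆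
          Set.Icc β (γ - x) := by
        intro y hy
        obtain ⟨y1, y2, y3⟩ := hy
        exact ⟨y2, by simp only at y3; linarith⟩
      refine (measure_mono hs).trans ?_
      rw [Real.volume_Icc]
      exact ENNReal.ofReal_le_ofReal (by linarith)
    · rw [Set.indicator_of_notMem hx]
      have hs : Prod.mk x ⁻¹' {p : ℝ × ℝ | α ≤ p.1 ∧ β ≤ p.2 ∧ p.1 + p.2 ≤ γ} = ∅ := by
        rw [Set.eq_empty_iff_forall_notMem]
        intro y hy
        obtain ⟨y1, y2, y3⟩ := hy
        simp only at y1 y2 y3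
        exact hx ⟨y1, by linarith⟩
      rw [hs, measure_empty]
  refine (lintegral_mono h1).trans ?_
  rw [lintegral_indicator measurableSet_Icc]
  by_cases hle : α ≤ γ - β
  · rw [← ofReal_integral_eq_lintegral_ofReal]
    · rw [integral_Icc_eq_integral_Ioc, ← intervalIntegral.integral_of_le hle,
        intervalIntegral.integral_comp_sub_left (fun x => x) (γ - β), integral_id]
      refine ENNReal.ofReal_le_ofReal (le_of_eq ?_)
      rw [max_eq_right (by linarith)]
      ring
    · exact (Continuous.integrableOn_Icc (by fun_prop))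
    · rw [EventuallyLE, ae_restrict_iff' measurableSet_Icc]
      refine Eventually.of_forall fun x hx => ?_
      simp only [Pi.zero_apply]
      linarith [hx.2]
  · rw [Set.Icc_eq_empty hle, Measure.restrict_empty, lintegral_zero_measure]
    exact bot_le

end H2ax

open H2ax in
theorem p_H2a : tH2a := by
  intro e f
  have hL : 1 - hn e - hn f = (1 - max 0 (e.1 + e.2) - max 0 (f.1 + f.2)) -
      (max 0 (-e.2) + max 0 (-f.2)) - (max 0 (-e.1) + max 0 (-f.1)) := by
    unfold hn; ring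
  rw [hL]
  refine (measure_mono ?_).trans (tri _ _ _)
  intro p hp
  have key : ∀ a b c : ℝ, (∀ s t : ℝ, (s = 0 ∨ s = 1) → (t = 0 ∨ t = 1) →
      0 ≤ c + s * a + t * b) → max 0 (-a) + max 0 (-b) ≤ c := by
    intro a b c h
    have h1 := h 0 0 (Or.inl rfl) (Or.inl rfl)
    have h2 := h 0 1 (Or.inl rfl) (Or.inr rfl)
    have h3 := h 1 0 (Or.inr rfl) (Or.inl rfl)
    have h4 := h 1 1 (Or.inr rfl) (Or.inr rfl)
    rcases max_cases 0 (-a) with h5 | h5 <;> rcases max_cases 0 (-b) with h6 | h6 <;>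
      linarith [h5.1, h6.1]
  refine ⟨?_, ?_, ?_⟩
  · exact key e.1 f.1 p.1 fun s t hs ht => (hp s t hs ht).1
  · exact key e.2 f.2 p.2 fun s t hs ht => (hp s t hs ht).2.1
  · have := key (-(e.1 + e.2)) (-(f.1 + f.2)) (1 - p.1 - p.2) fun s t hs ht => by
      have := (hp s t hs ht).2.2
      linarith
    rw [neg_neg, neg_neg] at this
    linarith

end SAIL.Q
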