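import Pool.Agent.SAIL.HAQ.Targets

/-!
SAIL, part H, quadrangles, item H2b: the integral over the second vector.
-/

namespace SAIL.Q.H2bx

open Matrix MeasureTheory Filter SAIL SAIL.A SAIL.F SAIL.Q

/-- The change of variables `(s, δ) ↦ s e + δ J e / |e|²`. -/
noncomputable def T (e : ℝ × ℝ) : (ℝ × ℝ) →ₗ[ℝ] (ℝ × ℝ) :=
  Matrix.toLin (Module.Basis.finTwoProd ℝ) (Module.Basis.finTwoProd ℝ)
    !![e.1, -(e.2 / (e.1 ^ 2 + e.2 ^ 2)); e.2, e.1 / (e.1 ^ 2 + e.2 ^ 2)]

lemma nsq {e : ℝ × ℝ} (he : e ≠ 0) : 0 < e.1 ^ 2 + e.2 ^ 2 := by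
  rcases eq_or_ne e.1 0 with h1 | h1
  · rcases eq_or_ne e.2 0 with h2 | h2
    · exact absurd (Prod.ext h1 h2) he
    · positivity
  · positivity

lemma T_det {e : ℝ × ℝ} (he : e ≠ 0) : LinearMap.det (T e) = 1 := by
  have h := nsq he
  unfold T
  rw [LinearMap.det_toLin, Matrix.det_fin_two_of]
  field_simp
  ring

lemma T_apply (e : ℝ × ℝ) (z : ℝ × ℝ) : T e z =
    (e.1 * z.1 + -(e.2 / (e.1 ^ 2 + e.2 ^ 2)) * z.2,
      e.2 * z.1 + e.1 / (e.1 ^ 2 + e.2 ^ 2) * z.2) := by
  unfold T
  rw [Matrix.toLin_finTwoProd_apply]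

lemma dd_T {e : ℝ × ℝ} (he : e ≠ 0) (z : ℝ × ℝ) : dd e (T e z) = z.2 := by
  have h := nsq he
  rw [T_apply]
  unfold dd
  simp only
  field_simp
  ring

lemma lint {e : ℝ × ℝ} (he : e ≠ 0) {F : ℝ × ℝ → ENNReal} (hF : Measurable F) :
    ∫⁻ f, F f = ∫⁻ z, F (T e z) := by
  have hT : Measurable (T e) := (LinearMap.continuous_of_finiteDimensional (T e)).measurable
  have hm : Measure.map (T e) (volume : Measure (ℝ × ℝ)) = volume := by
    have hd := T_det he
    rw [Measure.map_linearMap_addHaar_eq_smul_addHaar volume (by rw [hd]; norm_num), hd]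
    simp
  conv_lhs => rw [← hm]
  rw [lintegral_map hF hT]

lemma T_sub (e : ℝ × ℝ) (s s' d : ℝ) :
    T e (s, d) + (-1 : ℝ) • T e (s', d) = (s - s') • e := by
  rw [T_apply, T_apply]
  ext
  · simp; ring
  · simp; ring

/-- The slices have small volume. -/
lemma slice (h : tH2n) {e : ℝ × ℝ} (he : e ≠ 0) (r d : ℝ) :
    volume {s : ℝ | hn (T e (s, d)) ≤ r} ≤ ENNReal.ofReal (2 * r / hn e) := by
  obtain ⟨h1, h2, h3, -⟩ := h
  refine (Real.volume_le_diam _).trans (Metric.ediam_le ?_)
  intro s hs s' hs'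
  rw [edist_dist, Real.dist_eq]
  refine ENNReal.ofReal_le_ofReal ?_
  rw [le_div_iff₀ (h3 e he), ← h2, ← T_sub e s s' d]
  have h4 := h1 (T e (s, d)) ((-1 : ℝ) • T e (s', d))
  rw [h2, abs_neg, abs_one, one_mul] at h4
  have hs1 : hn (T e (s, d)) ≤ r := hs
  have hs2 : hn (T e (s', d)) ≤ r := hs'
  linarith

/-- The integral of `δ⁻²`. -/
lemma lin2 {b c : ℝ} (hb : 0 < b) (hc : b ≤ c) :
    ∫⁻ d in Set.Icc b c, ENNReal.ofReal (1 / d ^ 2) = ENNReal.ofReal (1 / b - 1 / c) := by
  have hc0 : 0 < c := hb.trans_le hc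
  have hI : IntervalIntegrable (fun d : ℝ => 1 / d ^ 2) volume b c := by
    refine ContinuousOn.intervalIntegrable ?_
    refine continuousOn_const.div (by fun_prop) ?_
    intro x hx
    rw [Set.uIcc_of_le hc] at hx
    have : 0 < x := hb.trans_le hx.1
    positivity
  have h1 : ∫ d in b..c, 1 / d ^ 2 = 1 / b - 1 / c := by
    have := intervalIntegral.integral_eq_sub_of_hasDerivAt (a := b) (b := c)
      (f := fun d : ℝ => -(1 / d)) (f' := fun d : ℝ => 1 / d ^ 2) ?_ hI
    · rw [this]; ring
    · intro x hx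
      rw [Set.uIcc_of_le hc] at hx
      have hx0 : 0 < x := hb.trans_le hx.1
      have h := (hasDerivAt_inv hx0.ne').neg
      simp only [one_div]
      convert h using 1
      · rfl
      · rw [neg_neg]
  rw [← h1, intervalIntegral.integral_of_le hc, ← integral_Icc_eq_integral_Ioc]
  rw [ofReal_integral_eq_lintegral_ofReal]
  · exact (intervalIntegrable_iff_integrableOn_Icc_of_le hc).1 hI
  · filter_upwards with x
    positivity

lemma hn_cont : Continuous hn := by
  unfold hn
  fun_prop

lemma dd_cont (e : ℝ × ℝ) : Continuous (dd e) := by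
  unfold dd
  fun_prop

end SAIL.Q.H2bx

namespace SAIL.Q

open Matrix MeasureTheory Filter SAIL SAIL.A SAIL.F SAIL.Q.H2bx

theorem p_H2b (h : tH2n) : tH2b := by
  intro e b r he hb hr
  have hne : 0 < hn e := h.2.2.1 e he
  set A : Set (ℝ × ℝ) := {f : ℝ × ℝ | hn f ≤ r ∧ b ≤ dd e f} with hA
  have hAm : MeasurableSet A := by
    refine MeasurableSet.inter ?_ ?_
    · exact (isClosed_le hn_cont continuous_const).measurableSet
    · exact (isClosed_le continuous_const (dd_cont e)).measurableSet
  have hFm : Measurable (A.indicator fun f => ENNReal.ofReal (1 / dd e f ^ 2)) := by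
    refine Measurable.indicator ?_ hAm
    have := (dd_cont e).measurable
    fun_prop
  rw [← lintegral_indicator hAm, lint he hFm, Measure.volume_eq_prod,
    lintegral_prod_symm _ ?_]
  swap
  · exact (hFm.comp (LinearMap.continuous_of_finiteDimensional (T e)).measurable).aemeasurable
  have key : ∀ d : ℝ, (∫⁻ s : ℝ, A.indicator (fun f => ENNReal.ofReal (1 / dd e f ^ 2))
      (T e (s, d))) ≤ (Set.Icc b (hn e * r)).indicator
        (fun d => ENNReal.ofReal (2 * r / hn e) * ENNReal.ofReal (1 / d ^ 2)) d := by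
    intro d
    by_cases hd : d ∈ Set.Icc b (hn e * r)
    · rw [Set.indicator_of_mem hd]
      calc (∫⁻ s : ℝ, A.indicator (fun f => ENNReal.ofReal (1 / dd e f ^ 2)) (T e (s, d)))
          ≤ ∫⁻ s : ℝ, ({s : ℝ | hn (T e (s, d)) ≤ r}).indicator
              (fun _ => ENNReal.ofReal (1 / d ^ 2)) s := by
            refine lintegral_mono fun s => ?_
            by_cases hs : T e (s, d) ∈ A
            · rw [Set.indicator_of_mem hs, dd_T he,
                Set.indicator_of_mem (show s ∈ {s : ℝ | hn (T e (s, d)) ≤ r} from hs.1)]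
            · rw [Set.indicator_of_notMem hs]
              exact bot_le
        _ = ENNReal.ofReal (1 / d ^ 2) * volume {s : ℝ | hn (T e (s, d)) ≤ r} := by
            rw [lintegral_indicator, setLIntegral_const]
            refine (isClosed_le (hn_cont.comp ?_) continuous_const).measurableSet
            exact (LinearMap.continuous_of_finiteDimensional (T e)).comp (by fun_prop)
        _ ≤ ENNReal.ofReal (1 / d ^ 2) * ENNReal.ofReal (2 * r / hn e) := by
            gcongr
            exact slice h he r d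
        _ = _ := mul_comm _ _
    · rw [Set.indicator_of_notMem hd]
      refine le_of_eq ?_
      rw [lintegral_eq_zero_iff' ?_]
      · refine Filter.Eventually.of_forall fun s => ?_
        refine Set.indicator_of_notMem ?_ _
        rintro ⟨h1, h2⟩
        rw [dd_T he] at h2
        refine hd ⟨h2, ?_⟩
        have h3 := h.2.2.2 e (T e (s, d))
        rw [dd_T he] at h3
        exact h3.trans (by gcongr)
      · exact (hFm.comp ((LinearMap.continuous_of_finiteDimensional (T e)).comp
          (by fun_prop : Continuous fun s : ℝ => (s, d))).measurable).aemeasurable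
  refine (lintegral_mono key).trans ?_
  rw [lintegral_indicator measurableSet_Icc, lintegral_const_mul _ (by fun_prop)]
  by_cases hc : b ≤ hn e * r
  · rw [lin2 hb hc, ← ENNReal.ofReal_mul (by positivity)]
    refine ENNReal.ofReal_le_ofReal ?_
    gcongr
    exact le_max_right _ _
  · rw [Set.Icc_eq_empty hc]
    simp

end SAIL.Q
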