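import Pool.Agent.SAIL.HAQ.Targets

/-!
SAIL, part H, item H2c: integration of functions of the hexagonal norm.
-/

namespace SAIL.Q

open Matrix MeasureTheory Filter SAIL SAIL.A SAIL.F

namespace H2cx

lemma cont_hn : Continuous hn := by
  unfold hn
  fun_prop

lemma set_eq (a : ℝ) : {e : ℝ × ℝ | hn e < a} =
    regionBetween (fun x => max (-a) (-a - x)) (fun x => min a (a - x)) (Set.Ioo (-a) a) := by
  ext ⟨x, y⟩
  simp only [regionBetween, hn, Set.mem_ofPred_eq, Set.mem_Ioo]
  constructor
  · intro h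
    have h1 := le_max_left 0 (-x)
    have h2 := le_max_left 0 (-y)
    have h3 := le_max_left 0 (x + y)
    have h4 := le_max_right 0 (-x)
    have h5 := le_max_right 0 (-y)
    have h6 := le_max_right 0 (x + y)
    refine ⟨⟨by linarith, by linarith⟩, max_lt (by linarith) (by linarith),
      lt_min (by linarith) (by linarith)⟩
  · rintro ⟨⟨h1, h2⟩, h3, h4⟩
    have h5 := (max_lt_iff.1 h3)
    have h6 := (lt_min_iff.1 h4)
    obtain ⟨h7, h8⟩ := h5
    obtain ⟨h9, h10⟩ := h6
    rcases le_total 0 (-x) with c1 | c1 <;> rcases le_total 0 (-y) with c2 | c2 <;>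
      rcases le_total 0 (x + y) with c3 | c3 <;>
      simp only [max_eq_left, max_eq_right, c1, c2, c3] <;> linarith

lemma diff_eq {a x : ℝ} :
    min a (a - x) - max (-a) (-a - x) = 2 * a - |x| := by
  rcases le_total 0 x with h | h
  · rw [min_eq_right (by linarith), max_eq_left (by linarith), abs_of_nonneg h]; ring
  · rw [min_eq_left (by linarith), max_eq_right (by linarith), abs_of_nonpos h]; ring

lemma int_abs {a : ℝ} (ha : 0 ≤ a) : ∫ x in (-a)..a, (2 * a - |x|) = 3 * a ^ 2 := by
  have hi : ∀ u v : ℝ, IntervalIntegrable (fun x : ℝ => 2 * a - |x|) volume u v := by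
    intro u v
    apply Continuous.intervalIntegrable
    fun_prop
  rw [← intervalIntegral.integral_add_adjacent_intervals (hi (-a) 0) (hi 0 a)]
  have h1 : ∫ x in (-a)..0, (2 * a - |x|) = ∫ x in (-a)..0, (2 * a + x) := by
    apply intervalIntegral.integral_congr
    intro x hx
    rw [Set.uIcc_of_le (by linarith)] at hx
    simp only
    rw [abs_of_nonpos hx.2]; ring
  have h2 : ∫ x in (0 : ℝ)..a, (2 * a - |x|) = ∫ x in (0 : ℝ)..a, (2 * a - x) := by
    apply intervalIntegral.integral_congr
    intro x hx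
    rw [Set.uIcc_of_le ha] at hx
    simp only
    rw [abs_of_nonneg hx.1]
  rw [h1, h2, intervalIntegral.integral_add (by simp) (by simp),
    intervalIntegral.integral_sub (by simp) (by simp)]
  simp
  ring

lemma vol_hex (a : ℝ) (ha : 0 ≤ a) : volume {e : ℝ × ℝ | hn e < a} = ENNReal.ofReal (3 * a ^ 2) := by
  rw [set_eq]
  have hle : ∀ x ∈ Set.Ioo (-a) a, max (-a) (-a - x) ≤ min a (a - x) := by
    intro x hx
    have := diff_eq (a := a) (x := x)
    have h1 : |x| ≤ a := abs_le.2 ⟨hx.1.le, hx.2.le⟩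
    linarith
  have hf : IntegrableOn (fun x : ℝ => max (-a) (-a - x)) (Set.Ioo (-a) a) volume := by
    apply (Continuous.integrableOn_Icc (a := -a) (b := a) (by fun_prop)).mono_set
    exact Set.Ioo_subset_Icc_self
  have hg : IntegrableOn (fun x : ℝ => min a (a - x)) (Set.Ioo (-a) a) volume := by
    apply (Continuous.integrableOn_Icc (a := -a) (b := a) (by fun_prop)).mono_set
    exact Set.Ioo_subset_Icc_self
  rw [Measure.volume_eq_prod, volume_regionBetween_eq_integral hf hg measurableSet_Ioo hle]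
  congr 1
  simp only [Pi.sub_apply]
  rw [← integral_Ioc_eq_integral_Ioo, ← intervalIntegral.integral_of_le (by linarith),
    ← int_abs ha]
  apply intervalIntegral.integral_congr
  intro x _
  exact diff_eq

/-- the density measure -/
noncomputable def nu : Measure ℝ :=
  (volume.restrict (Set.Ioi (0 : ℝ))).withDensity (fun a => ENNReal.ofReal (6 * a))

lemma nu_Iio (a : ℝ) (ha : 0 ≤ a) : nu (Set.Iio a) = ENNReal.ofReal (3 * a ^ 2) := by
  unfold nu
  rw [withDensity_apply _ measurableSet_Iio, Measure.restrict_restrict measurableSet_Iio]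
  have hs : Set.Iio a ∩ Set.Ioi (0 : ℝ) = Set.Ioo 0 a := by
    ext x; simp [and_comm]
  rw [hs]
  have h1 : ∫⁻ x in Set.Ioo 0 a, ENNReal.ofReal (6 * x) =
      ENNReal.ofReal (∫ x in Set.Ioo 0 a, 6 * x) := by
    rw [ofReal_integral_eq_lintegral_ofReal]
    · apply (Continuous.integrableOn_Icc (a := 0) (b := a) (by fun_prop)).mono_set
      exact Set.Ioo_subset_Icc_self
    · refine (ae_restrict_iff' measurableSet_Ioo).2 (Eventually.of_forall fun x hx => ?_)
      have := hx.1
      simp only [Pi.zero_apply]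
      positivity
  rw [h1]
  congr 1
  rw [← integral_Ioc_eq_integral_Ioo, ← intervalIntegral.integral_of_le ha,
    intervalIntegral.integral_const_mul, integral_id]
  ring

lemma nu_Iio_neg (a : ℝ) (ha : a ≤ 0) : nu (Set.Iio a) = 0 := by
  unfold nu
  rw [withDensity_apply _ measurableSet_Iio, Measure.restrict_restrict measurableSet_Iio]
  have hs : Set.Iio a ∩ Set.Ioi (0 : ℝ) = ∅ := by
    ext x
    simp only [Set.mem_inter_iff, Set.mem_Iio, Set.mem_Ioi, Set.mem_empty_iff_false, iff_false,
      not_and, not_lt]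
    intro h
    linarith
  rw [hs]
  simp

lemma hn_nonneg (e : ℝ × ℝ) : 0 ≤ hn e := by
  unfold hn
  have h1 := le_max_left 0 (-e.1)
  have h2 := le_max_left 0 (-e.2)
  have h3 := le_max_left 0 (e.1 + e.2)
  linarith

lemma map_Iio (a : ℝ) : (volume : Measure (ℝ × ℝ)).map hn (Set.Iio a) = nu (Set.Iio a) := by
  rw [Measure.map_apply cont_hn.measurable measurableSet_Iio]
  have hs : hn ⁻¹' Set.Iio a = {e : ℝ × ℝ | hn e < a} := rfl
  rw [hs]
  rcases le_total 0 a with h | h
  · rw [vol_hex a h, nu_Iio a h]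
  · rw [nu_Iio_neg a h]
    have : {e : ℝ × ℝ | hn e < a} = ∅ := by
      ext e
      have := hn_nonneg e
      simp only [Set.mem_ofPred_eq, Set.mem_empty_iff_false, iff_false, not_lt]
      linarith
    rw [this]
    simp

lemma nu_fin (a : ℝ) : nu (Set.Iio a) ≠ ⊤ := by
  rcases le_total 0 a with h | h
  · rw [nu_Iio a h]; exact ENNReal.ofReal_ne_top
  · rw [nu_Iio_neg a h]; exact ENNReal.zero_ne_top

instance : IsLocallyFiniteMeasure nu := by
  refine ⟨fun x => ⟨Set.Iio (x + 1), Iio_mem_nhds (by linarith), ?_⟩⟩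
  exact lt_top_iff_ne_top.2 (nu_fin _)

lemma map_eq : (volume : Measure (ℝ × ℝ)).map hn = nu := by
  symm
  refine Measure.ext_of_Ico _ _ fun a b hab => ?_
  have h1 : Set.Ico a b = Set.Iio b \ Set.Iio a := by
    ext x; simp [and_comm]
  rw [h1, measure_sdiff (Set.Iio_subset_Iio hab.le) measurableSet_Iio.nullMeasurableSet (nu_fin a),
    measure_sdiff (Set.Iio_subset_Iio hab.le) measurableSet_Iio.nullMeasurableSet
      (by rw [map_Iio]; exact nu_fin a), map_Iio, map_Iio]

end H2cx

open H2cx in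
theorem p_H2c : tH2c := by
  intro F hF
  have h1 : ∫⁻ e : ℝ × ℝ, F (hn e) = ∫⁻ t, F t ∂((volume : Measure (ℝ × ℝ)).map hn) :=
    (lintegral_map hF cont_hn.measurable).symm
  have hm : Measurable (fun a : ℝ => ENNReal.ofReal (6 * a)) := by fun_prop
  rw [h1, map_eq, nu, lintegral_withDensity_eq_lintegral_mul _ hm hF]
  rfl

end SAIL.Q
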