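import Pool.Agent.SAIL.HAQ.Targets

/-!
SAIL, part H: the hexagonal norm (H2n).
-/

namespace SAIL.Q

namespace H2nx

theorem pos_part (x : ℝ) : max 0 x - max 0 (-x) = x := by
  rcases le_total 0 x with h | h
  · rw [max_eq_right h, max_eq_left (by linarith)]
    ring
  · rw [max_eq_left h, max_eq_right (by linarith)]
    ring

theorem max_add0 (x y : ℝ) : max 0 (x + y) ≤ max 0 x + max 0 y :=
  max_le (add_nonneg (le_max_left _ _) (le_max_left _ _))
    (add_le_add (le_max_right _ _) (le_max_right _ _))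

theorem max_mul (c x : ℝ) (hc : 0 ≤ c) : max 0 (c * x) = c * max 0 x := by
  rw [mul_max_of_nonneg _ _ hc, mul_zero]

theorem hn_neg (e : ℝ × ℝ) : hn (-e) = hn e := by
  unfold hn
  have h1 := pos_part e.1
  have h2 := pos_part e.2
  have h3 := pos_part (e.1 + e.2)
  have h4 : (-e).1 + (-e).2 = -(e.1 + e.2) := by
    simp only [Prod.fst_neg, Prod.snd_neg]
    ring
  rw [h4]
  simp only [Prod.fst_neg, Prod.snd_neg, neg_neg]
  linarith

theorem hn_smul_nonneg (c : ℝ) (hc : 0 ≤ c) (e : ℝ × ℝ) : hn (c • e) = c * hn e := by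
  unfold hn
  have h4 : (c • e).1 + (c • e).2 = c * (e.1 + e.2) := by
    simp only [Prod.smul_fst, Prod.smul_snd, smul_eq_mul]
    ring
  rw [h4]
  simp only [Prod.smul_fst, Prod.smul_snd, smul_eq_mul]
  rw [← mul_neg, ← mul_neg, max_mul _ _ hc, max_mul _ _ hc, max_mul _ _ hc]
  ring

theorem le_hn (e : ℝ × ℝ) : |e.1| ≤ hn e ∧ |e.2| ≤ hn e ∧ |e.1 + e.2| ≤ hn e := by
  unfold hn
  have h1 := pos_part e.1
  have h2 := pos_part e.2
  have h3 := pos_part (e.1 + e.2)
  have a1 := le_max_left 0 e.1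
  have a2 := le_max_left 0 (-e.1)
  have a3 := le_max_left 0 e.2
  have a4 := le_max_left 0 (-e.2)
  have a5 := le_max_left 0 (e.1 + e.2)
  have a6 := le_max_left 0 (-(e.1 + e.2))
  refine ⟨abs_le.2 ⟨?_, ?_⟩, abs_le.2 ⟨?_, ?_⟩, abs_le.2 ⟨?_, ?_⟩⟩ <;> linarith

theorem key {a b P Q u v : ℝ} (ha : 0 ≤ a) (hb : 0 ≤ b) (hP : a + b ≤ P) (hu : |u| ≤ Q)
    (hv : |v| ≤ Q) : a * v - b * u ≤ P * Q := by
  have hQ : 0 ≤ Q := (abs_nonneg u).trans hu
  have h1 : a * v ≤ a * Q := mul_le_mul_of_nonneg_left ((le_abs_self v).trans hv) ha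
  have h2 : b * (-u) ≤ b * Q := mul_le_mul_of_nonneg_left ((neg_le_abs u).trans hu) hb
  have h3 : (a + b) * Q ≤ P * Q := mul_le_mul_of_nonneg_right hP hQ
  linarith

theorem dd_le (e f : ℝ × ℝ) : dd e f ≤ hn e * hn f := by
  obtain ⟨e1, e2, e3⟩ := le_hn e
  obtain ⟨f1, f2, f3⟩ := le_hn f
  rw [abs_le] at e1 e2 e3
  unfold dd
  have n1 : |-f.1| ≤ hn f := by rwa [abs_neg]
  have n2 : |-f.2| ≤ hn f := by rwa [abs_neg]
  have n3 : |-(f.1 + f.2)| ≤ hn f := by rwa [abs_neg]
  rcases le_total 0 e.1 with h1 | h1 <;> rcases le_total 0 e.2 with h2 | h2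
  · exact key h1 h2 e3.2 f1 f2
  · rcases le_total 0 (e.1 + e.2) with h3 | h3
    · have := key (a := -e.2) (b := e.1 + e.2) (P := hn e) (by linarith) h3 (by linarith)
        n2 f3
      linarith
    · have := key (a := -(e.1 + e.2)) (b := e.1) (P := hn e) (by linarith) h1 (by linarith)
        n3 f1
      linarith
  · rcases le_total 0 (e.1 + e.2) with h3 | h3
    · have := key (a := e.1 + e.2) (b := -e.1) (P := hn e) h3 (by linarith) (by linarith)
        f3 n1
      linarith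
    · have := key (a := e.2) (b := -(e.1 + e.2)) (P := hn e) h2 (by linarith) (by linarith)
        f2 n3
      linarith
  · have := key (a := -e.1) (b := -e.2) (P := hn e) (by linarith) (by linarith) (by linarith)
      n1 n2
    linarith

end H2nx

open H2nx in
theorem p_H2n : tH2n := by
  refine ⟨fun e f => ?_, fun c e => ?_, fun e he => ?_, dd_le⟩
  · unfold hn
    have h1 := max_add0 (-e.1) (-f.1)
    have h2 := max_add0 (-e.2) (-f.2)
    have h3 := max_add0 (e.1 + e.2) (f.1 + f.2)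
    have k1 : -(e + f).1 = -e.1 + -f.1 := by rw [Prod.fst_add]; ring
    have k2 : -(e + f).2 = -e.2 + -f.2 := by rw [Prod.snd_add]; ring
    have k3 : (e + f).1 + (e + f).2 = (e.1 + e.2) + (f.1 + f.2) := by
      rw [Prod.fst_add, Prod.snd_add]; ring
    rw [k1, k2, k3]
    linarith
  · rcases le_total 0 c with hc | hc
    · rw [abs_of_nonneg hc, hn_smul_nonneg c hc]
    · rw [abs_of_nonpos hc, ← hn_smul_nonneg (-c) (by linarith), neg_smul, hn_neg]
  · obtain ⟨e1, e2, -⟩ := le_hn e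
    by_contra hcon
    push Not at hcon
    apply he
    have h1 : e.1 = 0 := abs_eq_zero.1 (le_antisymm (e1.trans hcon) (abs_nonneg _))
    have h2 : e.2 = 0 := abs_eq_zero.1 (le_antisymm (e2.trans hcon) (abs_nonneg _))
    exact Prod.ext h1 h2

end SAIL.Q
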