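import Pool.Agent.SAIL.HAQ.Targets

/-!
SAIL, part H, quadrangles: the numerical bound of the last integral (helper76).

`1 - a - β/a` is bounded by its tangent at `c` on three intervals.
-/

namespace SAIL.Q

namespace H3x

open MeasureTheory

/-- The integrand. -/
noncomputable def g (a : ℝ) : ENNReal := ENNReal.ofReal (max 0 (1 - a - (2 / 17) / a) ^ 3)

theorem join (x y z A B : ℝ) (hA : 0 ≤ A) (hB : 0 ≤ B)
    (h1 : ∫⁻ a in Set.Ioc x y, g a ≤ ENNReal.ofReal A)
    (h2 : ∫⁻ a in Set.Ioc y z, g a ≤ ENNReal.ofReal B) :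
    ∫⁻ a in Set.Ioc x z, g a ≤ ENNReal.ofReal (A + B) := by
  have hs : Set.Ioc x z ⊆ Set.Ioc x y ∪ Set.Ioc y z := by
    intro a ha
    rcases le_or_gt a y with h | h
    · exact Or.inl ⟨ha.1, h⟩
    · exact Or.inr ⟨h, ha.2⟩
  rw [ENNReal.ofReal_add hA hB]
  exact (lintegral_mono_set hs).trans ((lintegral_union_le _ _ _).trans (add_le_add h1 h2))

theorem zero_piece (u v : ℝ) (hu : 0 ≤ u)
    (h : ∀ a, u < a → a ≤ v → 0 ≤ a ^ 2 - a + 2 / 17) :
    ∫⁻ a in Set.Ioc u v, g a ≤ ENNReal.ofReal 0 := by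
  rw [ENNReal.ofReal_zero, nonpos_iff_eq_zero]
  have h1 : ∀ a ∈ Set.Ioc u v, g a = 0 := by
    intro a ha
    have ha0 : 0 < a := lt_of_le_of_lt hu ha.1
    have h2 : 1 - a - (2 / 17) / a ≤ 0 := by
      have h3 : 1 - a - (2 / 17) / a = -(a ^ 2 - a + 2 / 17) / a := by
        field_simp
        ring
      rw [h3]
      exact div_nonpos_of_nonpos_of_nonneg (by linarith [h a ha.1 ha.2]) ha0.le
    unfold g
    rw [max_eq_left h2]
    simp
  rw [setLIntegral_congr_fun measurableSet_Ioc h1]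
  simp

theorem poly_int (u v s t : ℝ) :
    ∫ a in u..v, (s * a + t) ^ 3 = (v - u) * ((s * u + t) ^ 3 + (s * u + t) ^ 2 * (s * v + t) +
      (s * u + t) * (s * v + t) ^ 2 + (s * v + t) ^ 3) / 4 := by
  have h : ∀ x ∈ Set.uIcc u v, HasDerivAt
      (fun a : ℝ => s ^ 3 * a ^ 4 / 4 + s ^ 2 * t * a ^ 3 + 3 * s * t ^ 2 * a ^ 2 / 2 + t ^ 3 * a)
      ((s * x + t) ^ 3) x := by
    intro x _
    have h4 := ((hasDerivAt_pow 4 x).const_mul (s ^ 3)).div_const 4
    have h3 := (hasDerivAt_pow 3 x).const_mul (s ^ 2 * t)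
    have h2 := ((hasDerivAt_pow 2 x).const_mul (3 * s * t ^ 2)).div_const 2
    have h1 := (hasDerivAt_id x).const_mul (t ^ 3)
    have h5 := ((h4.add h3).add h2).add h1
    convert! h5 using 1
    simp
    ring
  rw [intervalIntegral.integral_eq_sub_of_hasDerivAt h
    ((by fun_prop : Continuous fun a : ℝ => (s * a + t) ^ 3).intervalIntegrable _ _)]
  ring

theorem piece (u v c : ℝ) (hu : 0 ≤ u) (huv : u ≤ v) (hc : 0 < c) (s t p q : ℝ)
    (hs : s = 2 / 17 / c ^ 2 - 1) (ht : t = 1 - 4 / 17 / c) (hp : p = s * u + t)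
    (hq : q = s * v + t) (hp0 : 0 ≤ p) (hq0 : 0 ≤ q) :
    ∫⁻ a in Set.Ioc u v, g a ≤
      ENNReal.ofReal ((v - u) * (p ^ 3 + p ^ 2 * q + p * q ^ 2 + q ^ 3) / 4) := by
  have hL0 : ∀ a ∈ Set.Ioc u v, 0 ≤ s * a + t := by
    intro a ha
    rcases eq_or_lt_of_le huv with h | h
    · exact absurd (ha.1.trans_le ha.2) (by rw [h]; exact lt_irrefl _)
    · have h1 : (v - u) * (s * a + t) = (v - a) * p + (a - u) * q := by
        rw [hp, hq]; ring
      have h2 : 0 ≤ (v - u) * (s * a + t) := by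
        rw [h1]
        exact add_nonneg (mul_nonneg (sub_nonneg.2 ha.2) hp0)
          (mul_nonneg (sub_nonneg.2 ha.1.le) hq0)
      by_contra hneg
      push Not at hneg
      have h3 : (v - u) * (s * a + t) < 0 := mul_neg_of_pos_of_neg (sub_pos.2 h) hneg
      linarith
  have hfL : ∀ a ∈ Set.Ioc u v, 1 - a - (2 / 17) / a ≤ s * a + t := by
    intro a ha
    have ha0 : 0 < a := lt_of_le_of_lt hu ha.1
    have h1 : (s * a + t) - (1 - a - (2 / 17) / a) = 2 / 17 * (a - c) ^ 2 / (a * c ^ 2) := by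
      rw [hs, ht]
      field_simp
      ring
    have h2 : 0 ≤ 2 / 17 * (a - c) ^ 2 / (a * c ^ 2) := by positivity
    linarith
  have hle : ∫⁻ a in Set.Ioc u v, g a ≤
      ∫⁻ a in Set.Ioc u v, ENNReal.ofReal ((s * a + t) ^ 3) := by
    refine setLIntegral_mono' measurableSet_Ioc fun a ha => ?_
    unfold g
    exact ENNReal.ofReal_le_ofReal
      (pow_le_pow_left₀ (le_max_left _ _) (max_le (hL0 a ha) (hfL a ha)) 3)
  refine hle.trans (le_of_eq ?_)
  rw [← ofReal_integral_eq_lintegral_ofReal]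
  · rw [← intervalIntegral.integral_of_le huv, poly_int, ← hp, ← hq]
  · exact ((by fun_prop : Continuous fun a : ℝ => (s * a + t) ^ 3).integrableOn_Icc).mono_set
      Set.Ioc_subset_Icc_self
  · refine (ae_restrict_iff' measurableSet_Ioc).2 (Filter.Eventually.of_forall fun a ha => ?_)
    exact pow_nonneg (hL0 a ha) 3

end H3x

open MeasureTheory H3x in
theorem p_H3 : tH3 := by
  have h0 := zero_piece 0 (17 / 125) le_rfl (by intro a h1 h2; nlinarith)
  have h1 := piece (17 / 125) (13 / 50) (11 / 50) (by norm_num) (by norm_num) (by norm_num)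
    _ _ _ _ rfl rfl rfl rfl (by norm_num) (by norm_num)
  have h2 := piece (13 / 50) (21 / 50) (17 / 50) (by norm_num) (by norm_num) (by norm_num)
    _ _ _ _ rfl rfl rfl rfl (by norm_num) (by norm_num)
  have h3 := piece (21 / 50) (108 / 125) (27 / 50) (by norm_num) (by norm_num) (by norm_num)
    _ _ _ _ rfl rfl rfl rfl (by norm_num) (by norm_num)
  have h4 := zero_piece (108 / 125) 1 (by norm_num) (by intro a h1 h2; nlinarith)
  have h5 := join _ _ _ _ _ (by norm_num) (by norm_num) h0 h1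
  have h6 := join _ _ _ _ _ (by norm_num) (by norm_num) h5 h2
  have h7 := join _ _ _ _ _ (by norm_num) (by norm_num) h6 h3
  have h8 := join _ _ _ _ _ (by norm_num) (by norm_num) h7 h4
  refine (lintegral_mono_set (Set.Ioo_subset_Ioc_self)).trans (h8.trans ?_)
  exact ENNReal.ofReal_le_ofReal (by norm_num)

end SAIL.Q
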