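import Pool.Agent.SAIL.HAQ.Targets

/-!
SAIL, part H, quadrangles: the change of variables `tHC`.
Rows `x, y, z` of `M` with `z = s u - p x - q y`, `u = (1,0,0)`; then `nn M = (p, q, 1) / s`.
-/

namespace SAIL.Q

open Matrix MeasureTheory Filter SAIL SAIL.A SAIL.F

namespace HCx

/-- Rows. -/
abbrev V := Fin 3 → ℝ

/-- Splitting off the first entry. -/
noncomputable def ev0 (α : Type) [MeasurableSpace α] : (Fin 3 → α) ≃ᵐ α × (α × α) :=
  (MeasurableEquiv.piFinSuccAbove (fun _ => α) 0).trans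
    ((MeasurableEquiv.refl α).prodCongr MeasurableEquiv.finTwoArrow)

/-- Splitting off the last entry. -/
noncomputable def ev2 (α : Type) [MeasurableSpace α] : (Fin 3 → α) ≃ᵐ α × (α × α) :=
  (MeasurableEquiv.piFinSuccAbove (fun _ => α) 2).trans
    ((MeasurableEquiv.refl α).prodCongr MeasurableEquiv.finTwoArrow)

lemma ev0_mp (α : Type) [MeasureSpace α] [SigmaFinite (volume : Measure α)] :
    MeasurePreserving (ev0 α) (volume : Measure (Fin 3 → α)) (volume : Measure (α × (α × α))) := by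
  have h1 := volume_preserving_piFinSuccAbove (fun _ : Fin 3 => α) 0
  have h2 : MeasurePreserving ((MeasurableEquiv.refl α).prodCongr MeasurableEquiv.finTwoArrow)
      (volume : Measure (α × (Fin 2 → α))) (volume : Measure (α × (α × α))) :=
    (MeasurePreserving.id volume).prod (volume_preserving_finTwoArrow α)
  exact h2.comp h1

lemma ev2_mp (α : Type) [MeasureSpace α] [SigmaFinite (volume : Measure α)] :
    MeasurePreserving (ev2 α) (volume : Measure (Fin 3 → α)) (volume : Measure (α × (α × α))) := by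
  have h1 := volume_preserving_piFinSuccAbove (fun _ : Fin 3 => α) 2
  have h2 : MeasurePreserving ((MeasurableEquiv.refl α).prodCongr MeasurableEquiv.finTwoArrow)
      (volume : Measure (α × (Fin 2 → α))) (volume : Measure (α × (α × α))) :=
    (MeasurePreserving.id volume).prod (volume_preserving_finTwoArrow α)
  exact h2.comp h1

lemma ev0_apply (α : Type) [MeasurableSpace α] (N : Fin 3 → α) : ev0 α N = (N 0, (N 1, N 2)) := rfl

lemma ev2_apply (α : Type) [MeasurableSpace α] (N : Fin 3 → α) : ev2 α N = (N 2, (N 0, N 1)) := rfl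

/-- The minor of two rows. -/
def D (P : V × V) : ℝ := P.1 1 * P.2 2 - P.1 2 * P.2 1

/-- Columns of two rows. -/
def Psi (P : V × V) : R6 := ((P.1 0, P.2 0), ((P.1 1, P.2 1), (P.1 2, P.2 2)))

lemma dd_Psi (P : V × V) : dd (Psi P).2.1 (Psi P).2.2 = D P := by
  simp only [dd, Psi, D]; ring

lemma Psi_mp : MeasurePreserving Psi (volume : Measure (V × V)) (volume : Measure R6) := by
  have h1 := (volume_measurePreserving_arrowProdEquivProdArrow ℝ ℝ (Fin 3)).symm
  exact (ev0_mp (ℝ × ℝ)).comp h1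

/-- The window. -/
def K (w : V) (δ : ℝ) : Prop := 0 < w 0 ∧ 0 < w 1 ∧ 0 < w 2 ∧ w 2 ^ 3 * δ ≤ w 0 * w 1 ∧
  w 0 ^ 2 ≤ w 1 ∧ w 1 ≤ Real.exp 3 * w 0 ^ 2 ∧ w 1 ^ 2 ≤ w 0 ∧ w 0 ≤ Real.exp 3 * w 1 ^ 2

/-- Scaling of the rows. -/
noncomputable def sc (w : V) (P : V × V) : V × V := ((w 0 / w 2) • P.1, (w 1 / w 2) • P.2)

/-- The coordinates of the third row. -/
noncomputable def W (t : V × (V × V)) : V :=
  ![(t.2.2 1 * t.1 2 - t.2.2 2 * t.1 1) / D t.2, (t.2.1 2 * t.1 1 - t.2.1 1 * t.1 2) / D t.2,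
    (t.2.1 0 * (t.2.2 1 * t.1 2 - t.2.2 2 * t.1 1) - t.2.1 1 * (t.2.2 0 * t.1 2 - t.2.2 2 * t.1 0)
      + t.2.1 2 * (t.2.2 0 * t.1 1 - t.2.2 1 * t.1 0)) / D t.2]

/-- The third row. -/
def Lw (P : V × V) (w : V) : V := ![w 2 - w 0 * P.1 0 - w 1 * P.2 0,
  - (w 0 * P.1 1) - w 1 * P.2 1, - (w 0 * P.1 2) - w 1 * P.2 2]

/-- The set in the coordinates `w, r0, r1`. -/
def QQ (S : Set R6) : Set (V × (V × V)) := {t | K t.1 (D t.2) ∧ 0 < D t.2 ∧ Psi t.2 ∈ S}

lemma meas_D : Measurable D := by unfold D; fun_prop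

lemma meas_K : MeasurableSet {t : V × ℝ | K t.1 t.2} := by
  have h1 : MeasurableSet {t : V × ℝ | 0 < t.1 0} := measurableSet_lt (by fun_prop) (by fun_prop)
  have h2 : MeasurableSet {t : V × ℝ | 0 < t.1 1} := measurableSet_lt (by fun_prop) (by fun_prop)
  have h3 : MeasurableSet {t : V × ℝ | 0 < t.1 2} := measurableSet_lt (by fun_prop) (by fun_prop)
  have h4 : MeasurableSet {t : V × ℝ | t.1 2 ^ 3 * t.2 ≤ t.1 0 * t.1 1} :=
    measurableSet_le (by fun_prop) (by fun_prop)
  have h5 : MeasurableSet {t : V × ℝ | t.1 0 ^ 2 ≤ t.1 1} :=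
    measurableSet_le (by fun_prop) (by fun_prop)
  have h6 : MeasurableSet {t : V × ℝ | t.1 1 ≤ Real.exp 3 * t.1 0 ^ 2} :=
    measurableSet_le (by fun_prop) (by fun_prop)
  have h7 : MeasurableSet {t : V × ℝ | t.1 1 ^ 2 ≤ t.1 0} :=
    measurableSet_le (by fun_prop) (by fun_prop)
  have h8 : MeasurableSet {t : V × ℝ | t.1 0 ≤ Real.exp 3 * t.1 1 ^ 2} :=
    measurableSet_le (by fun_prop) (by fun_prop)
  exact h1.inter (h2.inter (h3.inter (h4.inter (h5.inter (h6.inter (h7.inter h8))))))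

lemma meas_QQ {S : Set R6} (hS : MeasurableSet S) : MeasurableSet (QQ S) := by
  have h1 : MeasurableSet {t : V × (V × V) | K t.1 (D t.2)} :=
    (measurable_fst.prodMk (meas_D.comp measurable_snd)) meas_K
  have h2 : MeasurableSet {t : V × (V × V) | 0 < D t.2} :=
    measurableSet_lt measurable_const (meas_D.comp measurable_snd)
  have h3 : MeasurableSet {t : V × (V × V) | Psi t.2 ∈ S} :=
    (Psi_mp.measurable.comp measurable_snd) hS
  exact h1.inter (h2.inter h3)

lemma meas_W : Measurable W := by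
  have hD : Measurable fun t : V × (V × V) => D t.2 := meas_D.comp measurable_snd
  refine measurable_pi_lambda _ fun i => ?_
  fin_cases i
  · exact Measurable.div (by fun_prop) hD
  · exact Measurable.div (by fun_prop) hD
  · exact Measurable.div (by fun_prop) hD

lemma meas_sc : Measurable fun t : V × (V × V) => sc t.1 t.2 := by
  unfold sc
  fun_prop

lemma W_Lw (P : V × V) (hD : 0 < D P) (w : V) : W (Lw P w, P) = w := by
  have h := hD.ne'
  ext i
  fin_cases i
  · simp only [W, Lw, D] at h ⊢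
    simp
    rw [div_eq_iff h]; ring
  · simp only [W, Lw, D] at h ⊢
    simp
    rw [div_eq_iff h]; ring
  · simp only [W, Lw, D] at h ⊢
    simp
    rw [div_eq_iff h]; ring

lemma lin (P : V × V) (hD : 0 < D P) (f : V → ENNReal) (hf : Measurable f) :
    ∫⁻ z, f z = ENNReal.ofReal (D P) * ∫⁻ w : V, f (Lw P w) := by
  let A : Matrix (Fin 3) (Fin 3) ℝ := !![-P.1 0, -P.2 0, 1; -P.1 1, -P.2 1, 0; -P.1 2, -P.2 2, 0]
  have hA : A.det = D P := by
    simp [A, Matrix.det_fin_three, D]
    ring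
  have hL : ∀ w, Matrix.toLin' A w = Lw P w := by
    intro w
    ext i
    fin_cases i <;> simp [A, Matrix.toLin'_apply, Matrix.mulVec, dotProduct, Fin.sum_univ_three,
      Lw] <;> ring
  have h := Real.map_matrix_volume_pi_eq_smul_volume_pi (M := A) (by rw [hA]; exact hD.ne')
  have hm : Measurable (Matrix.toLin' A) :=
    (LinearMap.continuous_of_finiteDimensional _).measurable
  have h2 : ∫⁻ w, f (Lw P w) = ENNReal.ofReal (D P)⁻¹ * ∫⁻ z, f z := by
    have h3 := lintegral_map (μ := (volume : Measure V)) hf hm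
    rw [h, lintegral_smul_measure, hA, abs_of_pos (inv_pos.2 hD)] at h3
    simp only [hL] at h3
    exact h3.symm
  rw [h2, ← mul_assoc, ← ENNReal.ofReal_mul hD.le, mul_inv_cancel₀ hD.ne', ENNReal.ofReal_one,
    one_mul]

/-- Scaling of one row. -/
lemma scal1 {c : ℝ} (hc : 0 < c) (f : V → ENNReal) (hf : Measurable f) :
    ∫⁻ x, f x = ENNReal.ofReal (c ^ 3) * ∫⁻ x : V, f (c • x) := by
  have h := Measure.map_addHaar_smul (volume : Measure V) hc.ne'
  have h3 := lintegral_map (μ := (volume : Measure V)) hf (measurable_const_smul c)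
  rw [h, lintegral_smul_measure] at h3
  have h4 : Module.finrank ℝ V = 3 := by simp
  rw [← h3, h4, smul_eq_mul, ← mul_assoc, ← ENNReal.ofReal_mul (by positivity),
    abs_of_pos (by positivity), mul_inv_cancel₀ (by positivity), ENNReal.ofReal_one, one_mul]

lemma scal2 {c d : ℝ} (hc : 0 < c) (hd : 0 < d) (f : V × V → ENNReal) (hf : Measurable f) :
    ∫⁻ P, f P = ENNReal.ofReal (c ^ 3 * d ^ 3) * ∫⁻ P : V × V, f (c • P.1, d • P.2) := by
  have hg : Measurable fun P : V × V => f (c • P.1, d • P.2) := by fun_prop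
  rw [Measure.volume_eq_prod, lintegral_prod _ hf.aemeasurable, lintegral_prod _ hg.aemeasurable,
    scal1 hc _ hf.lintegral_prod_right', ENNReal.ofReal_mul (by positivity), mul_assoc]
  congr 1
  rw [← lintegral_const_mul _ hg.lintegral_prod_right']
  refine lintegral_congr fun x => ?_
  exact scal1 hd (fun y => f (c • x, y)) (hf.comp measurable_prodMk_left)

/-- The set in the rows. -/
def FF (S : Set R6) : Set (V × (V × V)) :=
  {t | 0 < D t.2 ∧ (W t, sc (W t) t.2) ∈ QQ S}

lemma meas_FF {S : Set R6} (hS : MeasurableSet S) : MeasurableSet (FF S) := by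
  have h1 : MeasurableSet {t : V × (V × V) | 0 < D t.2} :=
    measurableSet_lt measurable_const (meas_D.comp measurable_snd)
  have h2 : Measurable fun t : V × (V × V) => (W t, sc (W t) t.2) :=
    meas_W.prodMk (meas_sc.comp (meas_W.prodMk measurable_snd))
  exact h1.inter (h2 (meas_QQ hS))

lemma D_sc (w : V) (P : V × V) : D (sc w P) = (w 0 / w 2) * (w 1 / w 2) * D P := by
  simp only [D, sc, Pi.smul_apply, smul_eq_mul]; ring

/-- The matrices of the left side are in the set `FF`. -/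
lemma sub (S : Set R6) : {M : M3 | M ∈ Co ∧ WdQ M ∧ cc M ∈ S} ⊆
    (fun M : M3 => ev2 V M) ⁻¹' (FF S) := by
  rintro M ⟨hC, ⟨hn, hW⟩, hS⟩
  obtain ⟨hd0, hd1⟩ := hC
  have ht : ∀ N : Fin 3 → V, ev2 V N = (N 2, (N 0, N 1)) := fun N => rfl
  have hd : M.det = M 0 0 * (M 1 1 * M 2 2 - M 1 2 * M 2 1) - M 0 1 * (M 1 0 * M 2 2 - M 1 2 * M 2 0)
      + M 0 2 * (M 1 0 * M 2 1 - M 1 1 * M 2 0) := by
    rw [Matrix.det_fin_three]; ring
  have a0 : M.adjugate 0 0 = M 1 1 * M 2 2 - M 1 2 * M 2 1 := by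
    rw [Matrix.adjugate_fin_three]; simp
  have a1 : M.adjugate 0 1 = M 0 2 * M 2 1 - M 0 1 * M 2 2 := by
    rw [Matrix.adjugate_fin_three]; simp; ring
  have a2 : M.adjugate 0 2 = M 0 1 * M 1 2 - M 0 2 * M 1 1 := by
    rw [Matrix.adjugate_fin_three]; simp
  have n0 : 0 < M 1 1 * M 2 2 - M 1 2 * M 2 1 := by
    have := hn 0
    unfold nn at this
    rw [a0] at this
    exact (div_pos_iff_of_pos_right hd0).1 this
  have n1 : 0 < M 0 2 * M 2 1 - M 0 1 * M 2 2 := by
    have := hn 1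
    unfold nn at this
    rw [a1] at this
    exact (div_pos_iff_of_pos_right hd0).1 this
  have n2 : 0 < M 0 1 * M 1 2 - M 0 2 * M 1 1 := by
    have := hn 2
    unfold nn at this
    rw [a2] at this
    exact (div_pos_iff_of_pos_right hd0).1 this
  have hD : D (M 0, M 1) = M 0 1 * M 1 2 - M 0 2 * M 1 1 := rfl
  have w0 : W (M 2, (M 0, M 1)) 0 = nn M 0 / nn M 2 := by
    simp only [W, nn, a0, a2, hD]
    simp
    field_simp
  have w1 : W (M 2, (M 0, M 1)) 1 = nn M 1 / nn M 2 := by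
    simp only [W, nn, a1, a2, hD]
    simp
    field_simp
  have w2 : W (M 2, (M 0, M 1)) 2 = 1 / nn M 2 := by
    simp only [W, nn, a2, hD]
    simp
    rw [← hd]
  have h0 := hn 0
  have h1 := hn 1
  have h2 := hn 2
  have d2 : D (M 0, M 1) = M.det * nn M 2 := by
    unfold nn
    rw [a2, hD]
    field_simp
  have hsc : sc (W (M 2, (M 0, M 1))) (M 0, M 1) = (nn M 0 • M 0, nn M 1 • M 1) := by
    unfold sc
    rw [w0, w1, w2]
    congr 2
    · field_simp
    · field_simp
  have hDs : D (nn M 0 • M 0, nn M 1 • M 1) = nn M 0 * nn M 1 * (M.det * nn M 2) := by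
    rw [← d2]
    simp only [D, Pi.smul_apply, smul_eq_mul]; ring
  obtain ⟨c1, c2⟩ := hW 0 (by decide)
  obtain ⟨c3, c4⟩ := hW 1 (by decide)
  show ev2 V (fun i => M i) ∈ FF S
  rw [ht]
  refine ⟨?_, ?_, ?_, ?_⟩
  · show 0 < D (M 0, M 1)
    rw [hD]; exact n2
  · show K (W (M 2, (M 0, M 1))) (D (sc (W (M 2, (M 0, M 1))) (M 0, M 1)))
    rw [hsc, hDs]
    unfold K
    rw [w0, w1, w2]
    refine ⟨by positivity, by positivity, by positivity, ?_, ?_, ?_, ?_, ?_⟩
    · rw [show (1 / nn M 2) ^ 3 * (nn M 0 * nn M 1 * (M.det * nn M 2)) =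
        M.det * (nn M 0 / nn M 2 * (nn M 1 / nn M 2)) by field_simp]
      have : 0 < nn M 0 / nn M 2 * (nn M 1 / nn M 2) := by positivity
      nlinarith
    · rw [div_pow, div_le_div_iff₀ (by positivity) (by positivity)]
      have : nn M 0 * nn M 0 ^ 2 ≤ nn M 0 * (nn M 1 * nn M 2) := by nlinarith
      have := le_of_mul_le_mul_left this h0
      nlinarith
    · rw [div_pow, ← mul_div_assoc, div_le_div_iff₀ (by positivity) (by positivity)]
      have : nn M 0 * (nn M 1 * nn M 2) ≤ nn M 0 * (Real.exp 3 * nn M 0 ^ 2) := by nlinarith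
      have := le_of_mul_le_mul_left this h0
      nlinarith
    · rw [div_pow, div_le_div_iff₀ (by positivity) (by positivity)]
      have : nn M 1 * nn M 1 ^ 2 ≤ nn M 1 * (nn M 0 * nn M 2) := by nlinarith
      have := le_of_mul_le_mul_left this h1
      nlinarith
    · rw [div_pow, ← mul_div_assoc, div_le_div_iff₀ (by positivity) (by positivity)]
      have : nn M 1 * (nn M 0 * nn M 2) ≤ nn M 1 * (Real.exp 3 * nn M 1 ^ 2) := by nlinarith
      have := le_of_mul_le_mul_left this h1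
      nlinarith
  · show 0 < D (sc (W (M 2, (M 0, M 1))) (M 0, M 1))
    rw [hsc, hDs]
    positivity
  · show Psi (sc (W (M 2, (M 0, M 1))) (M 0, M 1)) ∈ S
    rw [hsc]
    have e : Psi (nn M 0 • M 0, nn M 1 • M 1) = cc M := by
      simp only [Psi, cc, BB, Matrix.diagonal_mul, Pi.smul_apply, smul_eq_mul]
    rw [e]; exact hS

/-! ### The integral over the window -/

lemma Js {a : ℝ} (ha : 0 < a) :
    ∫⁻ s in {s : ℝ | 0 < s ∧ s ^ 3 ≤ a}, ENNReal.ofReal (s ^ 8) ≤ ENNReal.ofReal (a ^ 3 / 9) := by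
  obtain ⟨t, ht, h3⟩ : ∃ t : ℝ, 0 < t ∧ t ^ 3 = a := by
    refine ⟨a ^ (1 / 3 : ℝ), Real.rpow_pos_of_pos ha _, ?_⟩
    rw [← Real.rpow_natCast, ← Real.rpow_mul ha.le]
    norm_num
  have hsub : {s : ℝ | 0 < s ∧ s ^ 3 ≤ a} ⊆ Set.Ioc 0 t := by
    rintro s ⟨h0, h1⟩
    rw [← h3] at h1
    exact ⟨h0, (pow_le_pow_iff_left₀ h0.le ht.le (by norm_num)).1 h1⟩
  refine (lintegral_mono_set hsub).trans (le_of_eq ?_)
  have hi : IntegrableOn (fun s : ℝ => s ^ 8) (Set.Ioc 0 t) := by
    have := (continuous_pow 8 : Continuous fun s : ℝ => s ^ 8).intervalIntegrable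
      (μ := volume) 0 t
    rwa [intervalIntegrable_iff_integrableOn_Ioc_of_le ht.le] at this
  rw [← ofReal_integral_eq_lintegral_ofReal hi]
  · rw [← intervalIntegral.integral_of_le ht.le, integral_pow, ← h3]
    congr 1
    norm_num
    ring
  · exact Eventually.of_forall fun s => by positivity

lemma Jl {a b : ℝ} (ha : 0 < a) (hab : a ≤ b) :
    ∫⁻ s in Set.Icc a b, ENNReal.ofReal (1 / s) = ENNReal.ofReal (Real.log (b / a)) := by
  have hc : ContinuousOn (fun s : ℝ => 1 / s) (Set.Icc a b) :=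
    continuousOn_const.div continuousOn_id fun x hx => (ha.trans_le hx.1).ne'
  have hi : IntegrableOn (fun s : ℝ => 1 / s) (Set.Icc a b) := hc.integrableOn_Icc
  rw [← ofReal_integral_eq_lintegral_ofReal hi]
  · rw [integral_Icc_eq_integral_Ioc, ← intervalIntegral.integral_of_le hab,
      integral_one_div_of_pos ha (ha.trans_le hab)]
  · refine (ae_restrict_iff' measurableSet_Icc).2 (Eventually.of_forall fun s hs => ?_)
    have := ha.trans_le hs.1
    show (0 : ℝ) ≤ 1 / s
    positivity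

/-- The window for `p, q`. -/
def Wn : Set (ℝ × ℝ) := {z | 0 < z.1 ∧ 0 < z.2 ∧ z.1 ^ 2 ≤ z.2 ∧ z.2 ≤ Real.exp 3 * z.1 ^ 2 ∧
  z.2 ^ 2 ≤ z.1 ∧ z.1 ≤ Real.exp 3 * z.2 ^ 2}

lemma meas_Wn : MeasurableSet Wn := by
  have h1 : MeasurableSet {z : ℝ × ℝ | 0 < z.1} := measurableSet_lt (by fun_prop) (by fun_prop)
  have h2 : MeasurableSet {z : ℝ × ℝ | 0 < z.2} := measurableSet_lt (by fun_prop) (by fun_prop)
  have h5 : MeasurableSet {z : ℝ × ℝ | z.1 ^ 2 ≤ z.2} :=
    measurableSet_le (by fun_prop) (by fun_prop)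
  have h6 : MeasurableSet {z : ℝ × ℝ | z.2 ≤ Real.exp 3 * z.1 ^ 2} :=
    measurableSet_le (by fun_prop) (by fun_prop)
  have h7 : MeasurableSet {z : ℝ × ℝ | z.2 ^ 2 ≤ z.1} :=
    measurableSet_le (by fun_prop) (by fun_prop)
  have h8 : MeasurableSet {z : ℝ × ℝ | z.1 ≤ Real.exp 3 * z.2 ^ 2} :=
    measurableSet_le (by fun_prop) (by fun_prop)
  exact h1.inter (h2.inter (h5.inter (h6.inter (h7.inter h8))))

/-- The window for `p, q / p ^ 2`. -/
def Wm : Set (ℝ × ℝ) := {z | 0 < z.1 ∧ 1 ≤ z.2 ∧ z.2 ≤ Real.exp 3 ∧ z.1 ^ 3 * z.2 ^ 2 ≤ 1 ∧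
  1 ≤ Real.exp 3 * (z.1 ^ 3 * z.2 ^ 2)}

lemma meas_Wm : MeasurableSet Wm := by
  have h1 : MeasurableSet {z : ℝ × ℝ | 0 < z.1} := measurableSet_lt (by fun_prop) (by fun_prop)
  have h2 : MeasurableSet {z : ℝ × ℝ | 1 ≤ z.2} := measurableSet_le (by fun_prop) (by fun_prop)
  have h5 : MeasurableSet {z : ℝ × ℝ | z.2 ≤ Real.exp 3} :=
    measurableSet_le (by fun_prop) (by fun_prop)
  have h6 : MeasurableSet {z : ℝ × ℝ | z.1 ^ 3 * z.2 ^ 2 ≤ 1} :=
    measurableSet_le (by fun_prop) (by fun_prop)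
  have h7 : MeasurableSet {z : ℝ × ℝ | 1 ≤ Real.exp 3 * (z.1 ^ 3 * z.2 ^ 2)} :=
    measurableSet_le (by fun_prop) (by fun_prop)
  exact h1.inter (h2.inter (h5.inter (h6.inter h7)))

/-- Scaling on the line. -/
lemma scal0 {c : ℝ} (hc : 0 < c) (f : ℝ → ENNReal) (hf : Measurable f) :
    ∫⁻ x, f x = ENNReal.ofReal c * ∫⁻ x, f (c * x) := by
  have h := Real.smul_map_volume_mul_left hc.ne'
  rw [abs_of_pos hc] at h
  conv_lhs => rw [← h]
  rw [lintegral_smul_measure, lintegral_map hf (measurable_const_mul c), smul_eq_mul]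

lemma Jpq : ∫⁻ z, Wn.indicator (fun z : ℝ × ℝ => ENNReal.ofReal (1 / (z.1 * z.2))) z ≤
    ENNReal.ofReal 3 := by
  have hm1 : Measurable (Wn.indicator (fun z : ℝ × ℝ => ENNReal.ofReal (1 / (z.1 * z.2)))) :=
    Measurable.indicator (by fun_prop) meas_Wn
  have hm2 : Measurable (Wm.indicator (fun z : ℝ × ℝ => ENNReal.ofReal (1 / (z.1 * z.2)))) :=
    Measurable.indicator (by fun_prop) meas_Wm
  rw [Measure.volume_eq_prod, lintegral_prod _ hm1.aemeasurable]
  have e1 : ∀ p : ℝ, ∫⁻ q, Wn.indicator (fun z : ℝ × ℝ => ENNReal.ofReal (1 / (z.1 * z.2))) (p, q) ≤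
      ∫⁻ r, Wm.indicator (fun z : ℝ × ℝ => ENNReal.ofReal (1 / (z.1 * z.2))) (p, r) := by
    intro p
    by_cases hp : 0 < p
    · have hm3 : Measurable fun q : ℝ =>
          Wn.indicator (fun z : ℝ × ℝ => ENNReal.ofReal (1 / (z.1 * z.2))) (p, q) :=
        hm1.comp measurable_prodMk_left
      have hm4 : Measurable fun q : ℝ =>
          Wn.indicator (fun z : ℝ × ℝ => ENNReal.ofReal (1 / (z.1 * z.2))) (p, p ^ 2 * q) :=
        hm3.comp (measurable_const_mul _)
      rw [scal0 (pow_pos hp 2) _ hm3, ← lintegral_const_mul _ hm4]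
      refine lintegral_mono fun r => ?_
      by_cases hz : (p, p ^ 2 * r) ∈ Wn
      · obtain ⟨-, g2, g3, g4, g5, g6⟩ := hz
        simp only at g2 g3 g4 g5 g6
        have hr : 0 < r := by
          by_contra hh
          push Not at hh
          nlinarith [pow_pos hp 2]
        have hz' : (p, r) ∈ Wm := by
          refine ⟨hp, ?_, ?_, ?_, ?_⟩
          · have : p ^ 2 * 1 ≤ p ^ 2 * r := by linarith
            exact le_of_mul_le_mul_left this (pow_pos hp 2)
          · have : p ^ 2 * r ≤ p ^ 2 * Real.exp 3 := by linarith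
            exact le_of_mul_le_mul_left this (pow_pos hp 2)
          · have : p * (p ^ 3 * r ^ 2) ≤ p * 1 := by nlinarith
            exact le_of_mul_le_mul_left this hp
          · have : p * 1 ≤ p * (Real.exp 3 * (p ^ 3 * r ^ 2)) := by nlinarith
            exact le_of_mul_le_mul_left this hp
        have hz2 : (p, p ^ 2 * r) ∈ Wn := ⟨hp, g2, g3, g4, g5, g6⟩
        rw [Set.indicator_of_mem hz2, Set.indicator_of_mem hz',
          ← ENNReal.ofReal_mul (by positivity)]
        apply le_of_eq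
        congr 1
        field_simp
      · rw [Set.indicator_of_notMem hz, mul_zero]
        exact bot_le
    · have : ∀ q, Wn.indicator (fun z : ℝ × ℝ => ENNReal.ofReal (1 / (z.1 * z.2))) (p, q) = 0 :=
        fun q => Set.indicator_of_notMem (fun h => hp h.1) _
      simp only [this]
      simp
  refine (lintegral_mono e1).trans ?_
  have hsw := lintegral_lintegral_swap (μ := (volume : Measure ℝ)) (ν := (volume : Measure ℝ))
    (f := fun p r => Wm.indicator (fun z : ℝ × ℝ => ENNReal.ofReal (1 / (z.1 * z.2))) (p, r))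
    (Measurable.aemeasurable hm2)
  rw [hsw]
  have e2 : ∀ r : ℝ, ∫⁻ p, Wm.indicator (fun z : ℝ × ℝ => ENNReal.ofReal (1 / (z.1 * z.2))) (p, r) ≤
      (Set.Icc 1 (Real.exp 3)).indicator (fun r => ENNReal.ofReal (1 / r)) r := by
    intro r
    by_cases hr : r ∈ Set.Icc 1 (Real.exp 3)
    · rw [Set.indicator_of_mem hr]
      have r0 : 0 < r := by linarith [hr.1]
      obtain ⟨t, ht, h3⟩ : ∃ t : ℝ, 0 < t ∧ t ^ 3 = 1 / r ^ 2 := by
        have ha : 0 < 1 / r ^ 2 := by positivity
        refine ⟨(1 / r ^ 2) ^ (1 / 3 : ℝ), Real.rpow_pos_of_pos ha _, ?_⟩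
        rw [← Real.rpow_natCast, ← Real.rpow_mul ha.le]
        norm_num
      have he : Real.exp 3 = Real.exp 1 ^ 3 := by rw [← Real.exp_nat_mul]; norm_num
      have hle : ∀ p : ℝ, Wm.indicator (fun z : ℝ × ℝ => ENNReal.ofReal (1 / (z.1 * z.2))) (p, r) ≤
          ENNReal.ofReal (1 / r) *
            (Set.Icc (t / Real.exp 1) t).indicator (fun p => ENNReal.ofReal (1 / p)) p := by
        intro p
        by_cases hz : (p, r) ∈ Wm
        · obtain ⟨p0, -, -, g3, g4⟩ := id hz
          simp only at p0 g3 g4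
          have hp : p ∈ Set.Icc (t / Real.exp 1) t := by
            constructor
            · rw [div_le_iff₀ (Real.exp_pos 1)]
              refine (pow_le_pow_iff_left₀ ht.le (by positivity) (n := 3) (by norm_num)).1 ?_
              rw [h3, mul_pow, ← he, div_le_iff₀ (by positivity)]
              nlinarith
            · refine (pow_le_pow_iff_left₀ p0.le ht.le (n := 3) (by norm_num)).1 ?_
              rw [h3, le_div_iff₀ (by positivity)]
              exact g3
          rw [Set.indicator_of_mem hz, Set.indicator_of_mem hp, ← ENNReal.ofReal_mul (by positivity)]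
          apply le_of_eq
          congr 1
          field_simp
        · rw [Set.indicator_of_notMem hz]
          exact bot_le
      refine (lintegral_mono hle).trans ?_
      rw [lintegral_const_mul _ (Measurable.indicator (by fun_prop) measurableSet_Icc),
        lintegral_indicator measurableSet_Icc, Jl (by positivity)
          (div_le_self ht.le (by linarith [Real.add_one_le_exp (1 : ℝ)]))]
      rw [div_div_cancel₀ ht.ne', Real.log_exp, ENNReal.ofReal_one, mul_one]
    · rw [Set.indicator_of_notMem hr]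
      have : ∀ p, Wm.indicator (fun z : ℝ × ℝ => ENNReal.ofReal (1 / (z.1 * z.2))) (p, r) = 0 :=
        fun p => Set.indicator_of_notMem (fun h => hr ⟨h.2.1, h.2.2.1⟩) _
      simp only [this]
      simp
  refine (lintegral_mono e2).trans (le_of_eq ?_)
  rw [lintegral_indicator measurableSet_Icc, Jl one_pos (Real.one_le_exp (by norm_num)), div_one,
    Real.log_exp]

/-- The window in the split coordinates. -/
def Kt (δ : ℝ) : Set (ℝ × (ℝ × ℝ)) := {t | t.2 ∈ Wn ∧ 0 < t.1 ∧ t.1 ^ 3 * δ ≤ t.2.1 * t.2.2}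

lemma meas_Kt (δ : ℝ) : MeasurableSet (Kt δ) := by
  have h1 : MeasurableSet {t : ℝ × (ℝ × ℝ) | t.2 ∈ Wn} := measurable_snd meas_Wn
  have h2 : MeasurableSet {t : ℝ × (ℝ × ℝ) | 0 < t.1} :=
    measurableSet_lt (by fun_prop) (by fun_prop)
  have h3 : MeasurableSet {t : ℝ × (ℝ × ℝ) | t.1 ^ 3 * δ ≤ t.2.1 * t.2.2} :=
    measurableSet_le (by fun_prop) (by fun_prop)
  exact h1.inter (h2.inter h3)

/-- The integral over the window. -/
lemma J {δ : ℝ} (hδ : 0 < δ) :
    ∫⁻ w : V, {w : V | K w δ}.indicator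
      (fun w => ENNReal.ofReal ((w 2 / w 0) ^ 4 * (w 2 / w 1) ^ 4)) w ≤
    ENNReal.ofReal (1 / (3 * δ ^ 3)) := by
  let g : ℝ × (ℝ × ℝ) → ENNReal := (Kt δ).indicator
    (fun t => ENNReal.ofReal ((t.1 / t.2.1) ^ 4 * (t.1 / t.2.2) ^ 4))
  have hg : Measurable g := Measurable.indicator (by fun_prop) (meas_Kt δ)
  have e1 : ∀ w : V, {w : V | K w δ}.indicator
      (fun w => ENNReal.ofReal ((w 2 / w 0) ^ 4 * (w 2 / w 1) ^ 4)) w ≤ g (ev2 ℝ w) := by
    intro w
    rw [ev2_apply]
    by_cases hw : K w δ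
    · have hw' : (w 2, (w 0, w 1)) ∈ Kt δ := by
        obtain ⟨a1, a2, a3, a4, a5, a6, a7, a8⟩ := hw
        exact ⟨⟨a1, a2, a5, a6, a7, a8⟩, a3, a4⟩
      rw [Set.indicator_of_mem (by exact hw)]
      show _ ≤ (Kt δ).indicator _ _
      rw [Set.indicator_of_mem hw']
    · rw [Set.indicator_of_notMem (by exact hw)]
      exact bot_le
  refine (lintegral_mono e1).trans ?_
  rw [(ev2_mp ℝ).lintegral_comp hg, Measure.volume_eq_prod, lintegral_prod_symm _ hg.aemeasurable]
  have e2 : ∀ z : ℝ × ℝ, ∫⁻ s, g (s, z) ≤ ENNReal.ofReal (1 / (9 * δ ^ 3)) *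
      Wn.indicator (fun z : ℝ × ℝ => ENNReal.ofReal (1 / (z.1 * z.2))) z := by
    rintro ⟨p, q⟩
    by_cases hz : (p, q) ∈ Wn
    · rw [Set.indicator_of_mem hz]
      have hp : 0 < p := hz.1
      have hq : 0 < q := hz.2.1
      have hms1 : MeasurableSet {s : ℝ | 0 < s} := measurableSet_lt (by fun_prop) (by fun_prop)
      have hms2 : MeasurableSet {s : ℝ | s ^ 3 ≤ p * q / δ} :=
        measurableSet_le (by fun_prop) (by fun_prop)
      have hms : MeasurableSet {s : ℝ | 0 < s ∧ s ^ 3 ≤ p * q / δ} := hms1.inter hms2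
      have e3 : ∀ s : ℝ, g (s, (p, q)) = ENNReal.ofReal (1 / (p * q) ^ 4) *
          {s : ℝ | 0 < s ∧ s ^ 3 ≤ p * q / δ}.indicator (fun s => ENNReal.ofReal (s ^ 8)) s := by
        intro s
        show (Kt δ).indicator _ _ = _
        by_cases hs : 0 < s ∧ s ^ 3 ≤ p * q / δ
        · have hs' : (s, (p, q)) ∈ Kt δ := ⟨hz, hs.1, (le_div_iff₀ hδ).1 hs.2⟩
          rw [Set.indicator_of_mem hs', Set.indicator_of_mem (by exact hs),
            ← ENNReal.ofReal_mul (by positivity)]
          congr 1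
          have := hs.1
          field_simp
        · have hs' : (s, (p, q)) ∉ Kt δ := fun h => hs ⟨h.2.1, (le_div_iff₀ hδ).2 h.2.2⟩
          rw [Set.indicator_of_notMem hs', Set.indicator_of_notMem (by exact hs), mul_zero]
      simp only [e3]
      rw [lintegral_const_mul _ (Measurable.indicator (by fun_prop) hms), lintegral_indicator hms]
      refine (mul_le_mul_right (Js (by positivity)) _).trans (le_of_eq ?_)
      rw [← ENNReal.ofReal_mul (by positivity), ← ENNReal.ofReal_mul (by positivity)]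
      congr 1
      field_simp
    · have : ∀ s, g (s, (p, q)) = 0 := fun s => Set.indicator_of_notMem (fun h => hz h.1) _
      simp only [this]
      simp
  refine (lintegral_mono e2).trans ?_
  rw [lintegral_const_mul _ (Measurable.indicator (by fun_prop) meas_Wn)]
  refine (mul_le_mul_right Jpq _).trans (le_of_eq ?_)
  rw [← ENNReal.ofReal_mul (by positivity)]
  congr 1
  field_simp
  norm_num

/-! ### The change of variables -/

/-- Integration over the third row. -/
lemma st1 {S : Set R6} (hS : MeasurableSet S) (P : V × V) :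
    ∫⁻ z, (FF S).indicator 1 (z, P) ≤
      ∫⁻ w : V, ENNReal.ofReal (D P) * (QQ S).indicator 1 (w, sc w P) := by
  by_cases hD : 0 < D P
  · have hm : Measurable fun z : V => (FF S).indicator (1 : V × (V × V) → ENNReal) (z, P) :=
      (Measurable.indicator measurable_one (meas_FF hS)).comp measurable_prodMk_right
    rw [lin P hD _ hm]
    have hm2 : Measurable fun w : V => (QQ S).indicator (1 : V × (V × V) → ENNReal) (w, sc w P) := by
      have h1 : Measurable fun w : V => (w, sc w P) :=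
        measurable_id.prodMk (meas_sc.comp (measurable_id.prodMk measurable_const))
      exact (Measurable.indicator measurable_one (meas_QQ hS)).comp h1
    rw [lintegral_const_mul _ hm2]
    refine mul_le_mul_right (lintegral_mono fun w => ?_) _
    by_cases hw : (Lw P w, P) ∈ FF S
    · have h2 := hw.2
      rw [W_Lw P hD] at h2
      rw [Set.indicator_of_mem hw, Set.indicator_of_mem h2]
      exact le_rfl
    · rw [Set.indicator_of_notMem hw]
      exact bot_le
  · have : ∀ z, (FF S).indicator (1 : V × (V × V) → ENNReal) (z, P) = 0 :=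
      fun z => Set.indicator_of_notMem (fun h => hD h.1) _
    simp only [this]
    simp

/-- Scaling of the first two rows. -/
lemma st2 {S : Set R6} (hS : MeasurableSet S) (w : V) :
    ∫⁻ P, ENNReal.ofReal (D P) * (QQ S).indicator 1 (w, sc w P) ≤
      ∫⁻ P : V × V, ENNReal.ofReal ((w 2 / w 0) ^ 4 * (w 2 / w 1) ^ 4) *
        (ENNReal.ofReal (D P) * (QQ S).indicator 1 (w, P)) := by
  by_cases hw : 0 < w 0 ∧ 0 < w 1 ∧ 0 < w 2
  · obtain ⟨h0, h1, h2⟩ := hw
    have hm : Measurable fun P : V × V => ENNReal.ofReal (D P) *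
        (QQ S).indicator (1 : V × (V × V) → ENNReal) (w, sc w P) := by
      have g1 : Measurable fun P : V × V => (w, sc w P) :=
        measurable_const.prodMk (meas_sc.comp (measurable_const.prodMk measurable_id))
      exact (ENNReal.measurable_ofReal.comp meas_D).mul
        ((Measurable.indicator measurable_one (meas_QQ hS)).comp g1)
    have hm2 : Measurable fun P : V × V => ENNReal.ofReal (D P) *
        (QQ S).indicator (1 : V × (V × V) → ENNReal) (w, P) :=
      (ENNReal.measurable_ofReal.comp meas_D).mul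
        ((Measurable.indicator measurable_one (meas_QQ hS)).comp measurable_prodMk_left)
    rw [scal2 (div_pos h2 h0) (div_pos h2 h1) _ hm, lintegral_const_mul _ hm2]
    have e : ∀ P : V × V, ENNReal.ofReal (D ((w 2 / w 0) • P.1, (w 2 / w 1) • P.2)) *
        (QQ S).indicator (1 : V × (V × V) → ENNReal)
          (w, sc w ((w 2 / w 0) • P.1, (w 2 / w 1) • P.2)) =
        ENNReal.ofReal (w 2 / w 0 * (w 2 / w 1)) *
        (ENNReal.ofReal (D P) * (QQ S).indicator (1 : V × (V × V) → ENNReal) (w, P)) := by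
      intro P
      have a1 : D ((w 2 / w 0) • P.1, (w 2 / w 1) • P.2) = w 2 / w 0 * (w 2 / w 1) * D P := by
        simp only [D, Pi.smul_apply, smul_eq_mul]; ring
      have a2 : sc w ((w 2 / w 0) • P.1, (w 2 / w 1) • P.2) = P := by
        unfold sc
        ext i
        · simp only [Pi.smul_apply, smul_eq_mul]
          field_simp
        · simp only [Pi.smul_apply, smul_eq_mul]
          field_simp
      rw [a1, a2, ENNReal.ofReal_mul (by positivity), mul_assoc]
    simp only [e]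
    rw [lintegral_const_mul _ hm2, ← mul_assoc, ← ENNReal.ofReal_mul (by positivity)]
    apply le_of_eq
    congr 2
    ring
  · have : ∀ P : V × V, (QQ S).indicator (1 : V × (V × V) → ENNReal) (w, P) = 0 :=
      fun P => Set.indicator_of_notMem (fun h => hw ⟨h.1.1, h.1.2.1, h.1.2.2.1⟩) _
    simp only [this]
    simp

/-- Integration over the window. -/
lemma st3 (S : Set R6) (P : V × V) :
    ∫⁻ w : V, ENNReal.ofReal ((w 2 / w 0) ^ 4 * (w 2 / w 1) ^ 4) *
        (ENNReal.ofReal (D P) * (QQ S).indicator 1 (w, P)) ≤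
    {p ∈ S | 0 < dd p.2.1 p.2.2}.indicator
      (fun p => ENNReal.ofReal (1 / 3) * ENNReal.ofReal (1 / dd p.2.1 p.2.2 ^ 2)) (Psi P) := by
  by_cases hP : 0 < D P ∧ Psi P ∈ S
  · obtain ⟨h0, h1⟩ := hP
    have hP' : Psi P ∈ {p ∈ S | 0 < dd p.2.1 p.2.2} := ⟨h1, by rw [dd_Psi]; exact h0⟩
    rw [Set.indicator_of_mem hP', dd_Psi]
    have hKm : MeasurableSet {w : V | K w (D P)} :=
      (measurable_id.prodMk measurable_const : Measurable fun w : V => (w, D P)) meas_K
    have e : ∀ w : V, ENNReal.ofReal ((w 2 / w 0) ^ 4 * (w 2 / w 1) ^ 4) *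
        (ENNReal.ofReal (D P) * (QQ S).indicator (1 : V × (V × V) → ENNReal) (w, P)) =
        ENNReal.ofReal (D P) * {w : V | K w (D P)}.indicator
          (fun w => ENNReal.ofReal ((w 2 / w 0) ^ 4 * (w 2 / w 1) ^ 4)) w := by
      intro w
      by_cases hw : K w (D P)
      · rw [Set.indicator_of_mem (show (w, P) ∈ QQ S from ⟨hw, h0, h1⟩),
          Set.indicator_of_mem (by exact hw)]
        simp only [Pi.one_apply, mul_one]
        rw [mul_comm]
      · rw [Set.indicator_of_notMem (fun h : (w, P) ∈ QQ S => hw h.1),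
          Set.indicator_of_notMem (by exact hw)]
        simp
    simp only [e]
    rw [lintegral_const_mul _ (Measurable.indicator (by fun_prop) hKm)]
    refine (mul_le_mul_right (J h0) _).trans (le_of_eq ?_)
    rw [← ENNReal.ofReal_mul h0.le, ← ENNReal.ofReal_mul (by norm_num)]
    congr 1
    field_simp
  · have : ∀ w : V, (QQ S).indicator (1 : V × (V × V) → ENNReal) (w, P) = 0 :=
      fun w => Set.indicator_of_notMem (fun h => hP h.2) _
    simp only [this]
    simp

end HCx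

theorem p_HC : tHC := by
  intro S hS
  have hdm : Measurable fun p : R6 => dd p.2.1 p.2.2 := by unfold dd; fun_prop
  have hT : MeasurableSet {p ∈ S | 0 < dd p.2.1 p.2.2} :=
    hS.inter (measurableSet_lt measurable_const hdm)
  have hF := HCx.meas_FF hS
  have hQ := HCx.meas_QQ hS
  calc volume {M : M3 | M ∈ Co ∧ WdQ M ∧ cc M ∈ S}
      ≤ volume ((HCx.ev2 HCx.V) ⁻¹' (HCx.FF S)) := measure_mono (HCx.sub S)
    _ = volume (HCx.FF S) := (HCx.ev2_mp HCx.V).measure_preimage hF.nullMeasurableSet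
    _ = ∫⁻ t, (HCx.FF S).indicator 1 t := (lintegral_indicator_one hF).symm
    _ = ∫⁻ P : HCx.V × HCx.V, ∫⁻ z : HCx.V, (HCx.FF S).indicator 1 (z, P) := by
        rw [Measure.volume_eq_prod]
        exact lintegral_prod_symm _ (Measurable.indicator measurable_one hF).aemeasurable
    _ ≤ ∫⁻ P : HCx.V × HCx.V, ∫⁻ w : HCx.V, ENNReal.ofReal (HCx.D P) *
          (HCx.QQ S).indicator 1 (w, HCx.sc w P) := lintegral_mono fun P => HCx.st1 hS P
    _ = ∫⁻ w : HCx.V, ∫⁻ P : HCx.V × HCx.V, ENNReal.ofReal (HCx.D P) *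
          (HCx.QQ S).indicator 1 (w, HCx.sc w P) := by
        refine lintegral_lintegral_swap (Measurable.aemeasurable ?_)
        have g1 : Measurable fun t : (HCx.V × HCx.V) × HCx.V => (t.2, HCx.sc t.2 t.1) :=
          measurable_snd.prodMk (HCx.meas_sc.comp (measurable_snd.prodMk measurable_fst))
        exact (ENNReal.measurable_ofReal.comp (HCx.meas_D.comp measurable_fst)).mul
          ((Measurable.indicator measurable_one hQ).comp g1)
    _ ≤ ∫⁻ w : HCx.V, ∫⁻ P : HCx.V × HCx.V,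
          ENNReal.ofReal ((w 2 / w 0) ^ 4 * (w 2 / w 1) ^ 4) *
          (ENNReal.ofReal (HCx.D P) * (HCx.QQ S).indicator 1 (w, P)) :=
        lintegral_mono fun w => HCx.st2 hS w
    _ = ∫⁻ P : HCx.V × HCx.V, ∫⁻ w : HCx.V,
          ENNReal.ofReal ((w 2 / w 0) ^ 4 * (w 2 / w 1) ^ 4) *
          (ENNReal.ofReal (HCx.D P) * (HCx.QQ S).indicator 1 (w, P)) := by
        refine lintegral_lintegral_swap (Measurable.aemeasurable ?_)
        have g0 : Measurable fun t : HCx.V × (HCx.V × HCx.V) =>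
            ENNReal.ofReal ((t.1 2 / t.1 0) ^ 4 * (t.1 2 / t.1 1) ^ 4) := by fun_prop
        exact g0.mul ((ENNReal.measurable_ofReal.comp (HCx.meas_D.comp measurable_snd)).mul
          (Measurable.indicator measurable_one hQ))
    _ ≤ ∫⁻ P : HCx.V × HCx.V, {p ∈ S | 0 < dd p.2.1 p.2.2}.indicator
          (fun p => ENNReal.ofReal (1 / 3) * ENNReal.ofReal (1 / dd p.2.1 p.2.2 ^ 2)) (HCx.Psi P) :=
        lintegral_mono fun P => HCx.st3 S P
    _ = ∫⁻ p, {p ∈ S | 0 < dd p.2.1 p.2.2}.indicator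
          (fun p => ENNReal.ofReal (1 / 3) * ENNReal.ofReal (1 / dd p.2.1 p.2.2 ^ 2)) p :=
        HCx.Psi_mp.lintegral_comp (Measurable.indicator (by fun_prop) hT)
    _ = ENNReal.ofReal (1 / 3) * ∫⁻ p in {p ∈ S | 0 < dd p.2.1 p.2.2},
          ENNReal.ofReal (1 / dd p.2.1 p.2.2 ^ 2) := by
        rw [lintegral_indicator hT, lintegral_const_mul _ (by fun_prop)]

end SAIL.Q
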