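import Pool.Agent.SAIL.HAQ.Targets

/-!
SAIL, part H, quadrangles: `K1`, `K2` in coordinates.
-/

namespace SAIL.Q.HKx

open Matrix MeasureTheory Filter SAIL SAIL.A SAIL.F

lemma BB_apply (M : M3) (i j : Fin 3) : BB M i j = nn M i * M i j := by
  unfold BB
  rw [Matrix.diagonal_mul]

/-- the column sums of `BB M` are `1, 0, 0` -/
lemma colsum {M : M3} (h : 0 < M.det) (j : Fin 3) :
    BB M 0 j + BB M 1 j + BB M 2 j = if j = 0 then 1 else 0 := by
  have h1 : (M.adjugate * M) 0 j = M.det * (1 : M3) 0 j := by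
    rw [Matrix.adjugate_mul, Matrix.smul_apply, smul_eq_mul]
  rw [Matrix.mul_apply, Fin.sum_univ_three, Matrix.one_apply] at h1
  rw [BB_apply, BB_apply, BB_apply]
  unfold nn
  have h2 : M.adjugate 0 0 / M.det * M 0 j + M.adjugate 0 1 / M.det * M 1 j +
      M.adjugate 0 2 / M.det * M 2 j =
      (M.adjugate 0 0 * M 0 j + M.adjugate 0 1 * M 1 j + M.adjugate 0 2 * M 2 j) / M.det := by
    ring
  rw [h2, h1, mul_div_assoc, mul_comm, div_mul_cancel₀ _ h.ne']
  fin_cases j <;> simp

/-- the normalised covolume -/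
lemma dl_eq {M : M3} (h : 0 < M.det) : dl M = dd (cc M).2.1 (cc M).2.2 := by
  have h1 : (BB M).det = dl M := by
    unfold BB dl
    rw [Matrix.det_mul, Matrix.det_diagonal, Fin.prod_univ_three]
  rw [← h1, Matrix.det_fin_three]
  have c0 := colsum h 0
  have c1 := colsum h 1
  have c2 := colsum h 2
  simp only [if_true] at c0
  rw [if_neg (by decide)] at c1 c2
  have e0 : BB M 2 0 = 1 - BB M 0 0 - BB M 1 0 := by linarith
  have e1 : BB M 2 1 = - BB M 0 1 - BB M 1 1 := by linarith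
  have e2 : BB M 2 2 = - BB M 0 2 - BB M 1 2 := by linarith
  rw [e0, e1, e2]
  simp only [dd, cc]
  ring

lemma S1_meas (b : ℝ) : MeasurableSet (S1 b) := by
  unfold S1 Red2 dd
  simp only [Set.ofPred_and]
  refine MeasurableSet.inter (MeasurableSet.inter ?_ (MeasurableSet.inter ?_
      (MeasurableSet.inter ?_ (MeasurableSet.inter ?_ ?_)))) (MeasurableSet.inter ?_
      (MeasurableSet.inter ?_ (MeasurableSet.inter ?_ ?_)))
  · exact (isOpen_lt (by fun_prop) (by fun_prop)).measurableSet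
  all_goals exact (isClosed_le (by fun_prop) (by fun_prop)).measurableSet

lemma S2_meas (b : ℝ) : MeasurableSet (S2 b) := by
  unfold S2 dd
  simp only [Set.ofPred_forall, Set.ofPred_and]
  refine MeasurableSet.inter (isClosed_le (by fun_prop) (by fun_prop)).measurableSet ?_
  refine IsClosed.measurableSet ?_
  refine isClosed_iInter fun s => isClosed_iInter fun t => isClosed_iInter fun _ =>
    isClosed_iInter fun _ => ?_
  refine IsClosed.inter ?_ (IsClosed.inter ?_ ?_)
  all_goals exact isClosed_le (by fun_prop) (by fun_prop)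

end SAIL.Q.HKx

namespace SAIL.Q

open Matrix MeasureTheory Filter SAIL SAIL.A SAIL.F

theorem p_HK : tHK := by
  intro a b ha hb
  refine ⟨HKx.S1_meas b, HKx.S2_meas b, ?_, ?_⟩
  · rintro M ⟨⟨hd, hW, hR, hal, hlb⟩, hCo⟩
    have hdl := HKx.dl_eq hd
    simp only [Rdc] at hR
    obtain ⟨r1, r2, r3, r4, r5, r6, r7, r8⟩ := hR
    refine ⟨hCo, hW, ⟨⟨?_, ?_, r1, r3, r4⟩, r5, ?_, r7, ?_⟩⟩
    · rw [← hdl]
      linarith
    · rw [← hdl]
      exact hlb
    · rw [← hdl]
      exact r6
    · rw [← hdl]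
      exact r8
  · rintro M ⟨⟨hd, hW, hal, hK⟩, hCo⟩
    have hdl := HKx.dl_eq hd
    refine ⟨hCo, hW, ?_, ?_⟩
    · rw [← hdl]
      exact hal
    · intro s t hs ht
      have c0 := HKx.colsum hd 0
      have c1 := HKx.colsum hd 1
      have c2 := HKx.colsum hd 2
      simp only [if_true] at c0
      rw [if_neg (by decide)] at c1 c2
      have k0 := hK 0
      have k1 := hK 1
      have k2 := hK 2
      simp only [cc]
      rcases hs with rfl | rfl <;> rcases ht with rfl | rfl <;>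
        refine ⟨?_, ?_, ?_⟩ <;> linarith [k0.1, k0.2.1, k0.2.2.1, k0.2.2.2, k1.1, k1.2.1,
          k1.2.2.1, k1.2.2.2, k2.1, k2.2.1, k2.2.2.1, k2.2.2.2]

end SAIL.Q
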