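import Pool.Agent.SAIL.HAQ.Targets

/-!
SAIL, part H, quadrangles, item HQ1: the bound for quadrangles.
-/

namespace SAIL.Q

open Matrix MeasureTheory Filter SAIL SAIL.A SAIL.F

theorem p_HQ1 (hHC : tHC) (hHK : tHK) (hH1 : tH1) (hH2 : tH2) (hH3 : tH3) : tHQ1 := by
  refine ⟨2 / 17, by norm_num, ?_⟩
  intro a ha
  obtain ⟨m1, m2, s1, s2⟩ := hHK a (2 / 17) ha (by norm_num)
  have v1 : volume (K1 a (2 / 17) ∩ Co) ≤ ENNReal.ofReal (1 / 3 * (Real.pi ^ 2 / 6 * (2 / 17))) := by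
    calc volume (K1 a (2 / 17) ∩ Co)
        ≤ volume {M : M3 | M ∈ Co ∧ WdQ M ∧ cc M ∈ S1 (2 / 17)} := measure_mono s1
      _ ≤ ENNReal.ofReal (1 / 3) * ∫⁻ p in {p ∈ S1 (2 / 17) | 0 < dd p.2.1 p.2.2},
          ENNReal.ofReal (1 / dd p.2.1 p.2.2 ^ 2) := hHC _ m1
      _ ≤ ENNReal.ofReal (1 / 3) * ENNReal.ofReal (Real.pi ^ 2 / 6 * (2 / 17)) := by
          gcongr
          exact hH1 (2 / 17) (by norm_num)
      _ = _ := by rw [← ENNReal.ofReal_mul (by norm_num)]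
  have v2 : volume (K2 (2 / 17) ∩ Co) ≤
      ENNReal.ofReal (1 / 3 * (2 / (2 / 17) * (107 / 10000))) := by
    calc volume (K2 (2 / 17) ∩ Co)
        ≤ volume {M : M3 | M ∈ Co ∧ WdQ M ∧ cc M ∈ S2 (2 / 17)} := measure_mono s2
      _ ≤ ENNReal.ofReal (1 / 3) * ∫⁻ p in {p ∈ S2 (2 / 17) | 0 < dd p.2.1 p.2.2},
          ENNReal.ofReal (1 / dd p.2.1 p.2.2 ^ 2) := hHC _ m2
      _ ≤ ENNReal.ofReal (1 / 3) * (ENNReal.ofReal (2 / (2 / 17)) *
          ENNReal.ofReal (107 / 10000)) := by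
          gcongr
          refine (hH2 (2 / 17) (by norm_num)).trans ?_
          gcongr
          exact hH3
      _ = _ := by
          rw [← ENNReal.ofReal_mul (by norm_num), ← ENNReal.ofReal_mul (by norm_num)]
  have v3 : volume (K2 (2 / 17) ∩ Co) / 4 ≤
      ENNReal.ofReal (1 / 3 * (2 / (2 / 17) * (107 / 10000)) / 4) := by
    rw [ENNReal.ofReal_div_of_pos (by norm_num)]
    have h4 : ENNReal.ofReal 4 = 4 := by norm_num
    rw [h4]
    exact ENNReal.div_le_div_right v2 4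
  have hpi : Real.pi ^ 2 ≤ 9.8697 := by
    have h1 := Real.pi_lt_d4
    have h0 := Real.pi_pos
    nlinarith
  calc volume (K1 a (2 / 17) ∩ Co) + volume (K2 (2 / 17) ∩ Co) / 4
      ≤ ENNReal.ofReal (1 / 3 * (Real.pi ^ 2 / 6 * (2 / 17))) +
        ENNReal.ofReal (1 / 3 * (2 / (2 / 17) * (107 / 10000)) / 4) := add_le_add v1 v3
    _ = ENNReal.ofReal (1 / 3 * (Real.pi ^ 2 / 6 * (2 / 17)) +
        1 / 3 * (2 / (2 / 17) * (107 / 10000)) / 4) := by
        rw [← ENNReal.ofReal_add (by positivity) (by norm_num)]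
    _ < ENNReal.ofReal (2 / 25) := by
        apply (ENNReal.ofReal_lt_ofReal_iff (by norm_num)).2
        linarith

end SAIL.Q
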