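import Pool.Agent.SAIL.HAQ.Targets

/-!
SAIL, part H, item H1b: the linear change of variables `f = x e + y J e` in the plane.
-/

namespace SAIL.Q

open Matrix MeasureTheory Filter SAIL SAIL.A SAIL.F

/-- H1b. Coordinates `f = x e + y J e`. -/
theorem p_H1b : tH1b := by
  intro e he F hF
  obtain ⟨L, hLdef⟩ : ∃ L : (ℝ × ℝ) →ₗ[ℝ] (ℝ × ℝ), L = Matrix.toLin
    (Module.Basis.finTwoProd ℝ) (Module.Basis.finTwoProd ℝ) !![e.1, -e.2; e.2, e.1] := ⟨_, rfl⟩
  have hL : ∀ z : ℝ × ℝ, L z = (z.1 * e.1 - z.2 * e.2, z.1 * e.2 + z.2 * e.1) := by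
    intro z
    rw [hLdef, Matrix.toLin_finTwoProd_apply]
    ext
    · show e.1 * z.1 + -e.2 * z.2 = z.1 * e.1 - z.2 * e.2
      ring
    · show e.2 * z.1 + e.1 * z.2 = z.1 * e.2 + z.2 * e.1
      ring
  have hdet : LinearMap.det L = e.1 ^ 2 + e.2 ^ 2 := by
    rw [hLdef, LinearMap.det_toLin, Matrix.det_fin_two_of]
    ring
  have hpos : 0 < e.1 ^ 2 + e.2 ^ 2 := by
    by_contra hn
    push Not at hn
    have h1 : e.1 = 0 := by nlinarith [sq_nonneg e.1, sq_nonneg e.2]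
    have h2 : e.2 = 0 := by nlinarith [sq_nonneg e.1, sq_nonneg e.2]
    exact he (Prod.ext h1 h2)
  have hmap := Measure.map_linearMap_addHaar_eq_smul_addHaar (volume : Measure (ℝ × ℝ))
    (f := L) (by rw [hdet]; exact hpos.ne')
  have hLm : Measurable L := (LinearMap.continuous_of_finiteDimensional L).measurable
  have h1 : ∫⁻ z, F (L z) = ∫⁻ f, F f ∂(Measure.map L volume) := (lintegral_map hF hLm).symm
  rw [hmap, lintegral_smul_measure, hdet, abs_of_pos (inv_pos.2 hpos)] at h1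
  have h2 : (fun z : ℝ × ℝ => F (z.1 * e.1 - z.2 * e.2, z.1 * e.2 + z.2 * e.1)) =
      fun z => F (L z) := by
    funext z
    rw [hL]
  rw [h2, h1, smul_eq_mul, ← mul_assoc, ← ENNReal.ofReal_mul hpos.le,
    mul_inv_cancel₀ hpos.ne', ENNReal.ofReal_one, one_mul]

end SAIL.Q
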