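import Pool.Agent.SAIL.FAC.Targets2

/-!
SAIL, part H, quadrangles: targets. The volumes of `K1 a b` and `K2 b`.
Coordinates `(b, e, e')`: first two entries of the three columns of `BB M`.
-/

namespace SAIL.Q

open Matrix MeasureTheory Filter SAIL SAIL.A SAIL.F

/-- Triples `(b, e, e')` of vectors of the plane. -/
abbrev R6 := (ℝ × ℝ) × (ℝ × ℝ) × (ℝ × ℝ)

/-- The determinant of two vectors. -/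
def dd (e f : ℝ × ℝ) : ℝ := e.1 * f.2 - e.2 * f.1

/-- The coordinates of a matrix. -/
noncomputable def cc (M : M3) : R6 :=
  ((BB M 0 0, BB M 1 0), (BB M 0 1, BB M 1 1), (BB M 0 2, BB M 1 2))

/-- Change of variables. -/
def tHC : Prop := ∀ S : Set R6, MeasurableSet S →
  volume {M : M3 | M ∈ Co ∧ WdQ M ∧ cc M ∈ S} ≤
    ENNReal.ofReal (1 / 3) * ∫⁻ p in {p ∈ S | 0 < dd p.2.1 p.2.2},
      ENNReal.ofReal (1 / dd p.2.1 p.2.2 ^ 2)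

/-- Reduced pairs. -/
def Red2 (b : ℝ) : Set ((ℝ × ℝ) × (ℝ × ℝ)) := {p | 0 < dd p.1 p.2 ∧ dd p.1 p.2 ≤ b ∧
  p.1.1 ^ 2 + p.1.2 ^ 2 ≤ p.2.1 ^ 2 + p.2.2 ^ 2 ∧
  2 * |p.1.1 * p.2.1 + p.1.2 * p.2.2| ≤ p.1.1 ^ 2 + p.1.2 ^ 2 ∧ 0 ≤ p.1.2}

/-- The set for `K1`. -/
def S1 (b : ℝ) : Set R6 := {p | p.2 ∈ Red2 b ∧
  0 ≤ dd p.1 p.2.2 ∧ dd p.1 p.2.2 ≤ dd p.2.1 p.2.2 ∧
  0 ≤ dd p.2.1 p.1 ∧ dd p.2.1 p.1 ≤ dd p.2.1 p.2.2}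

/-- The set for `K2`. -/
def S2 (b : ℝ) : Set R6 := {p | b ≤ dd p.2.1 p.2.2 ∧
  (∀ s t : ℝ, (s = 0 ∨ s = 1) → (t = 0 ∨ t = 1) →
    0 ≤ p.1.1 + s * p.2.1.1 + t * p.2.2.1 ∧ 0 ≤ p.1.2 + s * p.2.1.2 + t * p.2.2.2 ∧
    (p.1.1 + s * p.2.1.1 + t * p.2.2.1) + (p.1.2 + s * p.2.1.2 + t * p.2.2.2) ≤ 1)}

/-- `K1` and `K2` in coordinates. -/
def tHK : Prop := ∀ a b : ℝ, 0 < a → 0 < b →
  MeasurableSet (S1 b) ∧ MeasurableSet (S2 b) ∧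
  K1 a b ∩ Co ⊆ {M : M3 | M ∈ Co ∧ WdQ M ∧ cc M ∈ S1 b} ∧
  K2 b ∩ Co ⊆ {M : M3 | M ∈ Co ∧ WdQ M ∧ cc M ∈ S2 b}

/-! ### K1 -/

/-- Area of the parallelogram of base points. -/
def tH1a : Prop := ∀ e f : ℝ × ℝ, 0 < dd e f →
  volume {p : ℝ × ℝ | 0 ≤ dd p f ∧ dd p f ≤ dd e f ∧ 0 ≤ dd e p ∧ dd e p ≤ dd e f} =
    ENNReal.ofReal (dd e f)

/-- Coordinates `f = x e + y J e`. -/
def tH1b : Prop := ∀ e : ℝ × ℝ, e ≠ 0 → ∀ F : ℝ × ℝ → ENNReal, Measurable F →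
  ∫⁻ f, F f = ENNReal.ofReal (e.1 ^ 2 + e.2 ^ 2) *
    ∫⁻ z : ℝ × ℝ, F (z.1 * e.1 - z.2 * e.2, z.1 * e.2 + z.2 * e.1)

/-- Area of the half disc. -/
def tH1c : Prop := ∀ r : ℝ, 0 ≤ r →
  volume {e : ℝ × ℝ | 0 ≤ e.2 ∧ e.1 ^ 2 + e.2 ^ 2 ≤ r} = ENNReal.ofReal (Real.pi / 2 * r)

/-- Area of the modular domain. -/
def tH1d : Prop := ∫⁻ z in {z : ℝ × ℝ | |z.1| ≤ 1 / 2 ∧ 1 ≤ z.1 ^ 2 + z.2 ^ 2 ∧ 0 < z.2},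
  ENNReal.ofReal (1 / z.2 ^ 2) = ENNReal.ofReal (Real.pi / 3)

/-- The integral over reduced pairs. -/
def tH1e : Prop := ∀ b : ℝ, 0 < b →
  ∫⁻ p in Red2 b, ENNReal.ofReal (1 / dd p.1 p.2) ≤ ENNReal.ofReal (Real.pi ^ 2 / 6 * b)

def tH1 : Prop := ∀ b : ℝ, 0 < b →
  ∫⁻ p in {p ∈ S1 b | 0 < dd p.2.1 p.2.2}, ENNReal.ofReal (1 / dd p.2.1 p.2.2 ^ 2) ≤
    ENNReal.ofReal (Real.pi ^ 2 / 6 * b)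

/-! ### K2 -/

/-- The hexagonal norm. -/
noncomputable def hn (e : ℝ × ℝ) : ℝ := max 0 (-e.1) + max 0 (-e.2) + max 0 (e.1 + e.2)

/-- Base points of a parallelogram contained in the triangle. -/
def tH2a : Prop := ∀ e f : ℝ × ℝ,
  volume {p : ℝ × ℝ | ∀ s t : ℝ, (s = 0 ∨ s = 1) → (t = 0 ∨ t = 1) →
    0 ≤ p.1 + s * e.1 + t * f.1 ∧ 0 ≤ p.2 + s * e.2 + t * f.2 ∧
    (p.1 + s * e.1 + t * f.1) + (p.2 + s * e.2 + t * f.2) ≤ 1} ≤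
  ENNReal.ofReal (max 0 (1 - hn e - hn f) ^ 2 / 2)

/-- `hn` is a norm with `dd e f ≤ hn e * hn f`. -/
def tH2n : Prop := (∀ e f : ℝ × ℝ, hn (e + f) ≤ hn e + hn f) ∧
  (∀ (c : ℝ) (e : ℝ × ℝ), hn (c • e) = |c| * hn e) ∧ (∀ e : ℝ × ℝ, e ≠ 0 → 0 < hn e) ∧
  ∀ e f : ℝ × ℝ, dd e f ≤ hn e * hn f

/-- Integral over the second vector. -/
def tH2b : Prop := ∀ (e : ℝ × ℝ) (b r : ℝ), e ≠ 0 → 0 < b → 0 < r →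
  ∫⁻ f in {f : ℝ × ℝ | hn f ≤ r ∧ b ≤ dd e f}, ENNReal.ofReal (1 / dd e f ^ 2) ≤
    ENNReal.ofReal (2 * r / hn e * max 0 (1 / b - 1 / (hn e * r)))

/-- Integration of functions of `hn`. -/
def tH2c : Prop := ∀ F : ℝ → ENNReal, Measurable F →
  ∫⁻ e : ℝ × ℝ, F (hn e) = ∫⁻ a in Set.Ioi (0 : ℝ), ENNReal.ofReal (6 * a) * F a

def tH2 : Prop := ∀ b : ℝ, 0 < b →
  ∫⁻ p in {p ∈ S2 b | 0 < dd p.2.1 p.2.2}, ENNReal.ofReal (1 / dd p.2.1 p.2.2 ^ 2) ≤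
    ENNReal.ofReal (2 / b) * ∫⁻ a in Set.Ioo (0 : ℝ) 1, ENNReal.ofReal (max 0 (1 - a - b / a) ^ 3)

/-- Numerical value of the last integral. -/
def tH3 : Prop := ∫⁻ a in Set.Ioo (0 : ℝ) 1, ENNReal.ofReal (max 0 (1 - a - (2 / 17) / a) ^ 3) ≤
  ENNReal.ofReal (107 / 10000)

/-- The bound for quadrangles. -/
def tHQ1 : Prop := tHQ (2 / 25)

end SAIL.Q
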